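import Pool.Agent.Q4.JL.LJ

/-!
# Asymptotics of rational functions
-/

namespace Q4.JL

open Finset Filter Topology Bornology

theorem poly_asym (p : Polynomial ℂ) :
    Tendsto (fun t : ℂ => t ^ (-(p.natDegree : ℤ)) * p.eval t) (cobounded ℂ)
      (𝓝 p.leadingCoeff) := by
  have h1 : Tendsto (fun t : ℂ => p.reverse.eval t⁻¹) (cobounded ℂ) (𝓝 p.leadingCoeff) := by
    have h2 : p.reverse.eval 0 = p.leadingCoeff := by
      rw [← Polynomial.coeff_zero_eq_eval_zero, Polynomial.coeff_zero_reverse]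
    rw [← h2]
    exact (p.reverse.continuous.tendsto 0).comp tendsto_inv₀_cobounded
  refine h1.congr' ?_
  have h0 : ∀ᶠ t : ℂ in cobounded ℂ, t ≠ 0 := by
    exact eventually_ne_cobounded 0
  filter_upwards [h0] with t ht
  let _ : Invertible t := invertibleOfNonzero ht
  have h3 := Polynomial.eval₂_reverse_mul_pow (RingHom.id ℂ) t p
  rw [Polynomial.eval₂_id, Polynomial.eval₂_id, invOf_eq_inv] at h3
  rw [← h3, zpow_neg, zpow_natCast]
  have : t ^ p.natDegree ≠ 0 := pow_ne_zero _ ht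
  field_simp

/-- The leading coefficient of a rational function at infinity. -/
noncomputable def lead (c : RatFunc ℂ) : ℂ := c.num.leadingCoeff / c.denom.leadingCoeff

theorem lead_ne_zero {c : RatFunc ℂ} (hc : c ≠ 0) : lead c ≠ 0 := by
  apply div_ne_zero
  · rw [Polynomial.leadingCoeff_ne_zero]; exact RatFunc.num_ne_zero hc
  · rw [Polynomial.leadingCoeff_ne_zero]; exact RatFunc.denom_ne_zero c

theorem rat_asym (c : RatFunc ℂ) :
    Tendsto (fun t : ℂ => t ^ (-c.intDegree) * c.eval (RingHom.id ℂ) t) (cobounded ℂ)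
      (𝓝 (lead c)) := by
  have h1 := (poly_asym c.num).div (poly_asym c.denom)
    (Polynomial.leadingCoeff_ne_zero.mpr (RatFunc.denom_ne_zero c))
  refine h1.congr' ?_
  filter_upwards [eventually_ne_cobounded (0 : ℂ)] with t ht
  rw [RatFunc.eval, Polynomial.eval₂_id, Polynomial.eval₂_id, RatFunc.intDegree, neg_sub]
  show (t ^ (-(c.num.natDegree : ℤ)) * c.num.eval t) /
    (t ^ (-(c.denom.natDegree : ℤ)) * c.denom.eval t) = _
  rw [mul_div_mul_comm, sub_eq_add_neg, zpow_add₀ ht]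
  congr 1
  rw [zpow_neg, zpow_neg, div_eq_mul_inv, inv_inv, mul_comm]

theorem rat_asym_le {c : RatFunc ℂ} {d : ℤ} (h : c.intDegree ≤ d) :
    Tendsto (fun t : ℂ => t ^ (-d) * c.eval (RingHom.id ℂ) t) (cobounded ℂ)
      (𝓝 (if c.intDegree = d then lead c else 0)) := by
  split_ifs with heq
  · rw [← heq]; exact rat_asym c
  · obtain ⟨e, he⟩ := Int.le.dest h
    have he0 : e ≠ 0 := by rintro rfl; apply heq; simpa using he
    have h1 : Tendsto (fun t : ℂ => (t⁻¹) ^ e) (cobounded ℂ) (𝓝 0) := by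
      have := (tendsto_inv₀_cobounded (α := ℂ)).pow e
      rwa [zero_pow he0] at this
    have h2 := h1.mul (rat_asym c)
    rw [zero_mul] at h2
    refine h2.congr' ?_
    filter_upwards [eventually_ne_cobounded (0 : ℂ)] with t ht
    rw [← mul_assoc]
    congr 1
    rw [← he, neg_add, add_comm, zpow_add₀ ht, inv_pow, ← zpow_natCast, zpow_neg (a := t) (n := (e : ℤ))]

theorem rat_bounded {c : RatFunc ℂ} (h : c.intDegree ≤ 0) :
    ∃ L : ℂ, Tendsto (fun t : ℂ => c.eval (RingHom.id ℂ) t) (cobounded ℂ) (𝓝 L) := by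
  refine ⟨_, (rat_asym_le h).congr fun t => ?_⟩
  rw [neg_zero, zpow_zero, one_mul]

/-- The leading part of a polynomial with coefficients in the rational functions. -/
theorem leading (F : MvPolynomial Idx (RatFunc ℂ)) {S : Finset (Idx →₀ ℕ)} (hS : S.Nonempty)
    (hne : ∀ s ∈ S, F.coeff s ≠ 0) :
    ∃ (d : ℤ) (G : MvPolynomial Idx ℂ), G ≠ 0 ∧ G.support ⊆ S ∧
      (∀ s ∈ S, (F.coeff s).intDegree ≤ d) ∧
      ∀ s ∈ S, Tendsto (fun N : ℕ => (N : ℂ) ^ (-d) * (F.coeff s).eval (RingHom.id ℂ) (N : ℂ))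
        atTop (𝓝 (G.coeff s)) := by
  classical
  obtain ⟨s₀, hs₀, hmax⟩ := Finset.exists_max_image S (fun s => (F.coeff s).intDegree) hS
  set d := (F.coeff s₀).intDegree with hd
  set G : MvPolynomial Idx ℂ := ∑ s ∈ S, MvPolynomial.monomial s
    (if (F.coeff s).intDegree = d then lead (F.coeff s) else 0) with hG
  have hcoef : ∀ s ∈ S, G.coeff s =
      if (F.coeff s).intDegree = d then lead (F.coeff s) else 0 := by
    intro s hs
    rw [hG, MvPolynomial.coeff_sum, Finset.sum_eq_single s]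
    · rw [MvPolynomial.coeff_monomial, if_pos rfl]
    · intro t _ ht; rw [MvPolynomial.coeff_monomial, if_neg ht]
    · intro h; exact absurd hs h
  refine ⟨d, G, ?_, ?_, hmax, ?_⟩
  · intro h0
    have h1 := hcoef s₀ hs₀
    rw [h0, MvPolynomial.coeff_zero, if_pos rfl] at h1
    exact lead_ne_zero (hne s₀ hs₀) h1.symm
  · intro s hs
    rw [MvPolynomial.mem_support_iff] at hs
    by_contra hc
    apply hs
    rw [hG, MvPolynomial.coeff_sum]
    apply Finset.sum_eq_zero
    intro t ht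
    rw [MvPolynomial.coeff_monomial, if_neg (by rintro rfl; exact hc ht)]
  · intro s hs
    rw [hcoef s hs]
    exact (rat_asym_le (hmax s hs)).comp tendsto_natCast_atTop_cobounded

/-- Linear operators commute with the limit. -/
theorem lim_op {S : Finset (Idx →₀ ℕ)} {c : ℕ → (Idx →₀ ℕ) → ℂ} {d : ℤ}
    {G : MvPolynomial Idx ℂ} (hG : G.support ⊆ S)
    (hlim : ∀ s ∈ S, Tendsto (fun N : ℕ => (N : ℂ) ^ (-d) * c N s) atTop (𝓝 (G.coeff s)))
    (L : MvPolynomial Idx ℂ →ₗ[ℂ] MvPolynomial Idx ℂ) (t : Idx →₀ ℕ) :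
    Tendsto (fun N : ℕ => (N : ℂ) ^ (-d) *
      (L (∑ s ∈ S, MvPolynomial.monomial s (c N s))).coeff t) atTop (𝓝 ((L G).coeff t)) := by
  classical
  have h1 : ∀ (a : (Idx →₀ ℕ) → ℂ), (L (∑ s ∈ S, MvPolynomial.monomial s (a s))).coeff t =
      ∑ s ∈ S, a s * (L (MvPolynomial.monomial s 1)).coeff t := by
    intro a
    rw [map_sum, MvPolynomial.coeff_sum]
    apply Finset.sum_congr rfl
    intro s _
    have : MvPolynomial.monomial s (a s) = a s • (MvPolynomial.monomial s (1 : ℂ)) := by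
      rw [MvPolynomial.smul_monomial, smul_eq_mul, mul_one]
    rw [this, map_smul, MvPolynomial.coeff_smul, smul_eq_mul]
  have h2 : G = ∑ s ∈ S, MvPolynomial.monomial s (G.coeff s) := by
    conv_lhs => rw [G.as_sum]
    apply Finset.sum_subset hG
    intro s _ hs
    rw [MvPolynomial.notMem_support_iff.mp hs, MvPolynomial.monomial_zero]
  have h3 : (L G).coeff t = ∑ s ∈ S, G.coeff s * (L (MvPolynomial.monomial s 1)).coeff t := by
    conv_lhs => rw [h2]
    exact h1 _
  rw [h3]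
  have h4 : (fun N : ℕ => (N : ℂ) ^ (-d) *
      (L (∑ s ∈ S, MvPolynomial.monomial s (c N s))).coeff t) =
      fun N : ℕ => ∑ s ∈ S, ((N : ℂ) ^ (-d) * c N s) *
        (L (MvPolynomial.monomial s 1)).coeff t := by
    funext N
    rw [h1, Finset.mul_sum]
    apply Finset.sum_congr rfl
    intro s _
    ring
  rw [h4]
  exact tendsto_finsetSum _ fun s hs => (hlim s hs).mul_const _

end Q4.JL
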