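import Pool.Agent.Q4.JL.Defs

/-!
# Laurent polynomials, the Euler operators and the Calogero-Moser-Sutherland operator
-/

namespace Q4.JL

open Finset

theorem coeff_single_mul' (ψ : ℕ →₀ ℤ) (c : ℂ) (f : Lau) (χ : ℕ →₀ ℤ) :
    (AddMonoidAlgebra.single ψ c * f).coeff χ = c * f.coeff (χ - ψ) := by
  rw [AddMonoidAlgebra.coeff_single_mul_apply, neg_add_eq_sub]

theorem coeff_xpow_mul (i : ℕ) (a : ℤ) (f : Lau) (χ : ℕ →₀ ℤ) :
    (xpow i a * f).coeff χ = f.coeff (χ - Finsupp.single i a) := by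
  rw [xpow, coeff_single_mul', one_mul]

theorem euler_coeff (i : ℕ) (f : Lau) (χ : ℕ →₀ ℤ) :
    (euler i f).coeff χ = (χ i : ℂ) * f.coeff χ := rfl

theorem lau_ext {f g : Lau} (h : ∀ χ, f.coeff χ = g.coeff χ) : f = g :=
  AddMonoidAlgebra.ext (Finsupp.ext h)

theorem coeff_add' (f g : Lau) (χ : ℕ →₀ ℤ) : (f + g).coeff χ = f.coeff χ + g.coeff χ := rfl

theorem coeff_sub' (f g : Lau) (χ : ℕ →₀ ℤ) : (f - g).coeff χ = f.coeff χ - g.coeff χ := rfl

theorem coeff_smul' (c : ℂ) (f : Lau) (χ : ℕ →₀ ℤ) : (c • f).coeff χ = c * f.coeff χ := rfl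

theorem coeff_sum' {ι : Type*} (s : Finset ι) (f : ι → Lau) (χ : ℕ →₀ ℤ) :
    (∑ i ∈ s, f i).coeff χ = ∑ i ∈ s, (f i).coeff χ := by
  rw [AddMonoidAlgebra.coeff_sum, Finsupp.finsetSum_apply]

theorem euler_add (i : ℕ) (f g : Lau) : euler i (f + g) = euler i f + euler i g := by
  apply lau_ext; intro χ
  simp only [euler_coeff, coeff_add']; ring

theorem euler_sub (i : ℕ) (f g : Lau) : euler i (f - g) = euler i f - euler i g := by
  apply lau_ext; intro χ
  simp only [euler_coeff, coeff_sub']; ring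

theorem euler_smul (i : ℕ) (c : ℂ) (f : Lau) : euler i (c • f) = c • euler i f := by
  apply lau_ext; intro χ
  simp only [euler_coeff, coeff_smul']; ring

theorem euler_zero (i : ℕ) : euler i 0 = 0 := by
  apply lau_ext; intro χ
  simp [euler_coeff]

theorem euler_sum {ι : Type*} (s : Finset ι) (i : ℕ) (f : ι → Lau) :
    euler i (∑ j ∈ s, f j) = ∑ j ∈ s, euler i (f j) := by
  apply lau_ext; intro χ
  rw [euler_coeff, coeff_sum', coeff_sum', Finset.mul_sum]
  rfl

theorem euler_single_mul (i : ℕ) (ψ : ℕ →₀ ℤ) (c : ℂ) (f : Lau) :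
    euler i (AddMonoidAlgebra.single ψ c * f) =
      (ψ i : ℂ) • (AddMonoidAlgebra.single ψ c * f) + AddMonoidAlgebra.single ψ c * euler i f := by
  apply lau_ext; intro χ
  simp only [euler_coeff, coeff_add', coeff_smul', coeff_single_mul']
  have : ((χ - ψ) i : ℂ) = (χ i : ℂ) - (ψ i : ℂ) := by
    rw [Finsupp.sub_apply]; push_cast; ring
  rw [this]; ring

theorem euler_single (i : ℕ) (ψ : ℕ →₀ ℤ) (c : ℂ) :
    euler i (AddMonoidAlgebra.single ψ c) = (ψ i : ℂ) • (AddMonoidAlgebra.single ψ c : Lau) := by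
  apply lau_ext; intro χ
  simp only [euler_coeff, coeff_smul', AddMonoidAlgebra.coeff_single]
  by_cases h : ψ = χ
  · subst h; rfl
  · rw [Finsupp.single_eq_of_ne (Ne.symm h)]; simp

/-- The Leibniz rule. -/
theorem euler_mul (i : ℕ) (f g : Lau) : euler i (f * g) = euler i f * g + f * euler i g := by
  induction f using AddMonoidAlgebra.induction_linear with
  | zero => simp [euler_zero]
  | add f₁ f₂ h₁ h₂ => rw [add_mul, euler_add, h₁, h₂, euler_add]; ring
  | single ψ c =>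
    rw [euler_single_mul, euler_single, smul_mul_assoc]

theorem euler_xpow (i j : ℕ) (a : ℤ) :
    euler i (xpow j a) = if i = j then (a : ℂ) • xpow i a else 0 := by
  rw [xpow, euler_single]
  split_ifs with h
  · subst h; rw [Finsupp.single_eq_same]; rfl
  · rw [Finsupp.single_eq_of_ne h]; simp

/-- The line through `ψ` in the direction `e_i - e_j`. -/
noncomputable def line (ψ : ℕ →₀ ℤ) (i j : ℕ) (l : ℤ) : ℕ →₀ ℤ :=
  ψ + Finsupp.single i l - Finsupp.single j l

theorem line_zero (ψ : ℕ →₀ ℤ) (i j : ℕ) : line ψ i j 0 = ψ := by simp [line]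

theorem line_apply_left (ψ : ℕ →₀ ℤ) {i j : ℕ} (h : i ≠ j) (l : ℤ) :
    line ψ i j l i = ψ i + l := by
  simp [line, Finsupp.single_eq_of_ne h]

theorem line_apply_right (ψ : ℕ →₀ ℤ) {i j : ℕ} (h : i ≠ j) (l : ℤ) :
    line ψ i j l j = ψ j - l := by
  simp [line, Finsupp.single_eq_of_ne (Ne.symm h)]

theorem line_apply_of_ne (ψ : ℕ →₀ ℤ) {i j m : ℕ} (h : m ≠ i) (h' : m ≠ j) (l : ℤ) :
    line ψ i j l m = ψ m := by
  simp [line, Finsupp.single_eq_of_ne h, Finsupp.single_eq_of_ne h']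

theorem line_inj (ψ : ℕ →₀ ℤ) {i j : ℕ} (h : i ≠ j) : Function.Injective (line ψ i j) := by
  intro l l' hl
  have := DFunLike.congr_fun hl i
  rw [line_apply_left ψ h, line_apply_left ψ h] at this
  linarith

theorem line_swap (ψ : ℕ →₀ ℤ) (i j : ℕ) (l : ℤ) : line ψ j i l = line ψ i j (-l) := by
  ext m; simp [line]; ring

/-- Coefficients of a Laurent polynomial vanish far out on a line. -/
theorem line_vanish (g : Lau) (ψ : ℕ →₀ ℤ) {i j : ℕ} (h : i ≠ j) :
    ∃ l₀ : ℤ, ∀ l, l₀ ≤ l → g.coeff (line ψ i j l) = 0 ∧ g.coeff (line ψ i j (-l)) = 0 := by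
  have hfin : {l : ℤ | g.coeff (line ψ i j l) ≠ 0}.Finite := by
    apply Set.Finite.of_finite_image (f := line ψ i j) _ (line_inj ψ h).injOn
    apply g.coeff.support.finite_toSet.subset
    rintro _ ⟨l, hl, rfl⟩
    simpa using hl
  obtain ⟨M, hM⟩ := hfin.bddAbove
  obtain ⟨m, hm⟩ := hfin.bddBelow
  refine ⟨max (M + 1) (-m + 1), fun l hl => ⟨?_, ?_⟩⟩
  · by_contra hc
    have := hM hc
    have := le_max_left (M + 1) (-m + 1)
    omega
  · by_contra hc
    have := hm hc
    have := le_max_right (M + 1) (-m + 1)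
    omega

theorem line_rec {g h : Lau} {i j : ℕ}
    (hg : (xpow i 1 - xpow j 1) * g = (xpow i 1 + xpow j 1) * h) (ψ : ℕ →₀ ℤ) (l : ℤ) :
    g.coeff (line ψ i j l) - g.coeff (line ψ i j (l + 1)) =
      h.coeff (line ψ i j l) + h.coeff (line ψ i j (l + 1)) := by
  have hc := congrArg (fun f : Lau => f.coeff (line ψ i j l + Finsupp.single i 1)) hg
  simp only [sub_mul, add_mul, coeff_sub', coeff_add', coeff_xpow_mul] at hc
  have e1 : line ψ i j l + Finsupp.single i 1 - Finsupp.single i 1 = line ψ i j l := by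
    rw [add_sub_cancel_right]
  have e2 : line ψ i j l + Finsupp.single i 1 - Finsupp.single j 1 = line ψ i j (l + 1) := by
    rw [line, line, Finsupp.single_add, Finsupp.single_add]; abel
  rw [e1, e2] at hc
  exact hc

/-- The local formula in the positive direction. -/
theorem local_pos {g h : Lau} {i j : ℕ} (hij : i ≠ j)
    (hg : (xpow i 1 - xpow j 1) * g = (xpow i 1 + xpow j 1) * h) (ψ : ℕ →₀ ℤ)
    (h0 : ∀ l : ℤ, 1 ≤ l → h.coeff (line ψ i j l) = 0) : g.coeff ψ = h.coeff ψ := by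
  obtain ⟨l₀, hl₀⟩ := line_vanish g ψ hij
  have key : ∀ n : ℕ, g.coeff (line ψ i j (1 + n)) = g.coeff (line ψ i j 1) := by
    intro n
    induction n with
    | zero => simp
    | succ n ih =>
      have := line_rec hg ψ (1 + n)
      rw [h0 _ (by omega), h0 _ (by omega), ih] at this
      push_cast
      rw [← add_assoc]
      linear_combination -this
  have hz : g.coeff (line ψ i j 1) = 0 := by
    rw [← key (l₀ - 1).toNat]
    exact (hl₀ _ (by omega)).1
  have := line_rec hg ψ 0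
  rw [zero_add, hz, h0 1 le_rfl, line_zero] at this
  linear_combination this

/-- The local formula in the negative direction. -/
theorem local_neg {g h : Lau} {i j : ℕ} (hij : i ≠ j)
    (hg : (xpow i 1 - xpow j 1) * g = (xpow i 1 + xpow j 1) * h) (ψ : ℕ →₀ ℤ)
    (h0 : ∀ l : ℤ, 1 ≤ l → h.coeff (line ψ i j (-l)) = 0) : g.coeff ψ = -h.coeff ψ := by
  have hg' : (xpow j 1 - xpow i 1) * (-g) = (xpow j 1 + xpow i 1) * h := by
    rw [add_comm (xpow j 1)]
    rw [← hg]; ring
  have := local_pos (Ne.symm hij) hg' ψ (fun l hl => by rw [line_swap]; exact h0 l hl)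
  have e : (-g).coeff ψ = -(g.coeff ψ) := rfl
  rw [e] at this
  linear_combination -this

theorem g_unique {g g' : Lau} {i j : ℕ} (hij : i ≠ j)
    (hg : (xpow i 1 - xpow j 1) * g = (xpow i 1 - xpow j 1) * g') : g = g' := by
  have h0 : (xpow i 1 - xpow j 1) * (g - g') = (xpow i 1 + xpow j 1) * 0 := by
    rw [mul_sub, hg, sub_self, mul_zero]
  have : g - g' = 0 := by
    apply lau_ext
    intro ψ
    exact local_pos hij h0 ψ (fun l _ => rfl)
  exact sub_eq_zero.mp this

/-- The sum of the squares of the first `N` coordinates. -/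
def sq (N : ℕ) (ψ : ℕ →₀ ℤ) : ℤ := ∑ i ∈ range N, ψ i ^ 2

/-- The sum of the absolute differences of the first `N` coordinates. -/
def bb (N : ℕ) (ψ : ℕ →₀ ℤ) : ℤ := ∑ j ∈ range N, ∑ i ∈ range j, |ψ i - ψ j|

/-- The Calogero-Moser-Sutherland operator as a relation. -/
def Cms (k : ℂ) (N : ℕ) (f h : Lau) : Prop :=
  ∃ g : ℕ → ℕ → Lau,
    (∀ i j, i < j → j < N →
      (xpow i 1 - xpow j 1) * g i j = (xpow i 1 + xpow j 1) * (euler i f - euler j f)) ∧
    h = ∑ i ∈ range N, euler i (euler i f) - k • ∑ j ∈ range N, ∑ i ∈ range j, g i j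

theorem Cms.unique {k : ℂ} {N : ℕ} {f h h' : Lau} (H : Cms k N f h) (H' : Cms k N f h') :
    h = h' := by
  obtain ⟨g, hg, rfl⟩ := H
  obtain ⟨g', hg', rfl⟩ := H'
  have : ∑ j ∈ range N, ∑ i ∈ range j, g i j = ∑ j ∈ range N, ∑ i ∈ range j, g' i j := by
    apply Finset.sum_congr rfl
    intro j hj
    apply Finset.sum_congr rfl
    intro i hi
    rw [mem_range] at hi hj
    exact g_unique (ne_of_lt hi) ((hg i j hi hj).trans (hg' i j hi hj).symm)
  rw [this]

/-- The local formula for the Calogero-Moser-Sutherland operator. -/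
theorem Cms.coeff {k : ℂ} {N : ℕ} {f h : Lau} (H : Cms k N f h) (ψ : ℕ →₀ ℤ)
    (hψ : ∀ i j, i < N → j < N → i ≠ j → ψ j ≤ ψ i → ∀ l : ℤ, 1 ≤ l →
      f.coeff (line ψ i j l) = 0) :
    h.coeff ψ = ((sq N ψ : ℂ) - k * (bb N ψ : ℂ)) * f.coeff ψ := by
  obtain ⟨g, hg, rfl⟩ := H
  rw [coeff_sub', coeff_smul', coeff_sum', coeff_sum']
  have h1 : ∑ i ∈ range N, (euler i (euler i f)).coeff ψ = (sq N ψ : ℂ) * f.coeff ψ := by
    rw [sq]; push_cast; rw [Finset.sum_mul]
    apply Finset.sum_congr rfl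
    intro i _
    rw [euler_coeff, euler_coeff]; ring
  have h2 : ∑ j ∈ range N, (∑ i ∈ range j, g i j).coeff ψ = (bb N ψ : ℂ) * f.coeff ψ := by
    rw [bb]; push_cast; rw [Finset.sum_mul]
    apply Finset.sum_congr rfl
    intro j hj
    rw [coeff_sum', Finset.sum_mul]
    apply Finset.sum_congr rfl
    intro i hi
    rw [mem_range] at hi hj
    have hij : i ≠ j := ne_of_lt hi
    have hcoef : ∀ χ : ℕ →₀ ℤ, (euler i f - euler j f).coeff χ =
        ((χ i : ℂ) - (χ j : ℂ)) * f.coeff χ := by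
      intro χ; rw [coeff_sub', euler_coeff, euler_coeff]; ring
    rcases le_total (ψ j) (ψ i) with hle | hle
    · rw [local_pos hij (hg i j hi hj) ψ, hcoef]
      · have : |(ψ i : ℝ) - (ψ j : ℝ)| = ((ψ i : ℝ) - (ψ j : ℝ)) :=
          abs_of_nonneg (by exact_mod_cast sub_nonneg.mpr hle)
        rw [abs_of_nonneg (sub_nonneg.mpr hle)]; push_cast; ring
      · intro l hl
        rw [hcoef, hψ i j (by omega) hj hij hle l hl, mul_zero]
    · rw [local_neg hij (hg i j hi hj) ψ, hcoef]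
      · rw [abs_of_nonpos (sub_nonpos.mpr hle)]; push_cast; ring
      · intro l hl
        rw [hcoef, ← line_swap, hψ j i hj (by omega) (Ne.symm hij) hle l hl, mul_zero]
  rw [h1, h2]; ring

end Q4.JL
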