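import Pool.Agent.Q4.JL.Grade

/-!
# Coefficients of products of power sums
-/

namespace Q4.JL

open Finset

/-- The coefficient of a product of power sums at an exponent. -/
noncomputable def cnt (N : ℕ) : List ℤ → (ℕ →₀ ℤ) → ℕ
  | [], χ => by classical exact if χ = 0 then 1 else 0
  | a :: l, χ => ∑ i ∈ range N, cnt N l (χ - Finsupp.single i a)

theorem coeff_prod (N : ℕ) (l : List ℤ) (χ : ℕ →₀ ℤ) :
    ((l.map (powerSum N)).prod).coeff χ = (cnt N l χ : ℂ) := by
  classical
  induction l generalizing χ with
  | nil =>
    rw [List.map_nil, List.prod_nil, cnt]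
    have : (1 : Lau) = AddMonoidAlgebra.single 0 1 := rfl
    rw [this, AddMonoidAlgebra.coeff_single]
    by_cases h : χ = 0
    · subst h; simp
    · rw [Finsupp.single_eq_of_ne h, if_neg h]; simp
  | cons a l ih =>
    rw [List.map_cons, List.prod_cons, cnt, powerSum, Finset.sum_mul, coeff_sum']
    push_cast
    apply Finset.sum_congr rfl
    intro i _
    rw [coeff_xpow_mul, ih]

/-- The sum of the absolute values of the coordinates. -/
def gr (χ : ℕ →₀ ℤ) : ℕ := ∑ i ∈ χ.support, (χ i).natAbs

theorem gr_eq {χ : ℕ →₀ ℤ} {S : Finset ℕ} (h : χ.support ⊆ S) :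
    gr χ = ∑ i ∈ S, (χ i).natAbs := by
  rw [gr]
  apply Finset.sum_subset h
  intro i _ hi
  rw [Finsupp.notMem_support_iff.mp hi]; rfl

theorem gr_add_le (χ ψ : ℕ →₀ ℤ) : gr (χ + ψ) ≤ gr χ + gr ψ := by
  classical
  rw [gr_eq (χ := χ + ψ) (S := χ.support ∪ ψ.support) Finsupp.support_add,
    gr_eq (χ := χ) (S := χ.support ∪ ψ.support) Finset.subset_union_left,
    gr_eq (χ := ψ) (S := χ.support ∪ ψ.support) Finset.subset_union_right,
    ← Finset.sum_add_distrib]
  apply Finset.sum_le_sum
  intro i _
  exact Int.natAbs_add_le _ _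

theorem gr_single (i : ℕ) (a : ℤ) : gr (Finsupp.single i a) = a.natAbs := by
  rw [gr_eq (S := {i}) Finsupp.support_single_subset, Finset.sum_singleton,
    Finsupp.single_eq_same]

theorem gr_le_sub_single (χ : ℕ →₀ ℤ) (i : ℕ) (a : ℤ) :
    gr χ ≤ gr (χ - Finsupp.single i a) + a.natAbs := by
  have := gr_add_le (χ - Finsupp.single i a) (Finsupp.single i a)
  rwa [sub_add_cancel, gr_single] at this

theorem gr_sub_single_of_zero {χ : ℕ →₀ ℤ} {i : ℕ} (h : χ i = 0) (a : ℤ) :
    gr (χ - Finsupp.single i a) = gr χ + a.natAbs := by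
  classical
  have h1 : (χ - Finsupp.single i a).support ⊆ insert i χ.support := by
    intro j hj
    rw [Finset.mem_insert]
    by_contra hc
    push Not at hc
    apply Finsupp.mem_support_iff.mp hj
    rw [Finsupp.sub_apply, Finsupp.single_eq_of_ne hc.1, Finsupp.notMem_support_iff.mp hc.2]
    rfl
  have hi : i ∉ χ.support := by rwa [Finsupp.notMem_support_iff]
  rw [gr_eq h1, Finset.sum_insert hi, gr, add_comm]
  congr 1
  · apply Finset.sum_congr rfl
    intro j hj
    have : j ≠ i := fun hji => hi (hji ▸ hj)
    rw [Finsupp.sub_apply, Finsupp.single_eq_of_ne this, sub_zero]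
  · rw [Finsupp.sub_apply, h, Finsupp.single_eq_same, zero_sub, Int.natAbs_neg]

/-- The weight of a list. -/
def lw (l : List ℤ) : ℕ := (l.map Int.natAbs).sum

theorem lw_cons (a : ℤ) (l : List ℤ) : lw (a :: l) = a.natAbs + lw l := rfl

theorem cnt_gr {N : ℕ} {l : List ℤ} {χ : ℕ →₀ ℤ} (h : cnt N l χ ≠ 0) : gr χ ≤ lw l := by
  classical
  induction l generalizing χ with
  | nil =>
    rw [cnt] at h
    split_ifs at h with h0
    · subst h0; exact Nat.zero_le _
    · exact absurd rfl h
  | cons a l ih =>
    rw [cnt] at h
    obtain ⟨i, _, hi⟩ := Finset.exists_ne_zero_of_sum_ne_zero h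
    have := ih hi
    have := gr_le_sub_single χ i a
    rw [lw_cons]; omega

theorem cnt_supp {N : ℕ} {l : List ℤ} {χ : ℕ →₀ ℤ} (h : cnt N l χ ≠ 0) :
    ∀ j, N ≤ j → χ j = 0 := by
  classical
  induction l generalizing χ with
  | nil =>
    rw [cnt] at h
    split_ifs at h with h0
    · subst h0; intro j _; rfl
    · exact absurd rfl h
  | cons a l ih =>
    rw [cnt] at h
    obtain ⟨i, hiN, hi⟩ := Finset.exists_ne_zero_of_sum_ne_zero h
    intro j hj
    have := ih hi j hj
    rw [mem_range] at hiN
    rwa [Finsupp.sub_apply, Finsupp.single_eq_of_ne (by omega), sub_zero] at this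

theorem cnt_stable {N₀ N : ℕ} (hN : N₀ ≤ N) {l : List ℤ} (hl : ∀ a ∈ l, a ≠ 0)
    {χ : ℕ →₀ ℤ} (hχ : ∀ j, N₀ ≤ j → χ j = 0) (hg : lw l ≤ gr χ) :
    cnt N l χ = cnt N₀ l χ := by
  classical
  induction l generalizing χ with
  | nil => rw [cnt, cnt]
  | cons a l ih =>
    rw [lw_cons] at hg
    have ha : a ≠ 0 := hl a List.mem_cons_self
    have ha' := Int.natAbs_pos.mpr ha
    rw [cnt, cnt]
    rw [← Finset.sum_subset (Finset.range_subset_range.mpr hN)
      (f := fun i => cnt N l (χ - Finsupp.single i a))]
    · apply Finset.sum_congr rfl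
      intro i hi
      rw [mem_range] at hi
      apply ih (fun b hb => hl b (List.mem_cons_of_mem _ hb))
      · intro j hj
        rw [Finsupp.sub_apply, Finsupp.single_eq_of_ne (by omega), sub_zero]
        exact hχ j hj
      · have := gr_le_sub_single χ i a
        omega
    · intro i _ hi
      rw [mem_range, not_lt] at hi
      by_contra hc
      have := cnt_gr hc
      rw [gr_sub_single_of_zero (hχ i hi)] at this
      omega

/-- The multiset of nonzero coordinates. -/
def vals (χ : ℕ →₀ ℤ) : Multiset ℤ := χ.support.val.map χ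

theorem cnt_card {N : ℕ} {l : List ℤ} {χ : ℕ →₀ ℤ} (h : cnt N l χ ≠ 0) :
    χ.support.card ≤ l.length ∧ (χ.support.card = l.length → vals χ = (l : Multiset ℤ)) := by
  classical
  induction l generalizing χ with
  | nil =>
    rw [cnt] at h
    split_ifs at h with h0
    · subst h0
      refine ⟨by simp, fun _ => ?_⟩
      simp [vals]
    · exact absurd rfl h
  | cons a l ih =>
    rw [cnt] at h
    obtain ⟨i, _, hi⟩ := Finset.exists_ne_zero_of_sum_ne_zero h
    obtain ⟨h1, h2⟩ := ih hi
    set χ' := χ - Finsupp.single i a with hχ'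
    have hsub : χ.support ⊆ insert i χ'.support := by
      intro j hj
      rw [Finset.mem_insert]
      by_contra hc
      push Not at hc
      apply Finsupp.mem_support_iff.mp hj
      have := Finsupp.notMem_support_iff.mp hc.2
      rw [hχ', Finsupp.sub_apply, Finsupp.single_eq_of_ne hc.1, sub_zero] at this
      exact this
    have hc1 : χ.support.card ≤ χ'.support.card + 1 :=
      (Finset.card_le_card hsub).trans (Finset.card_insert_le _ _)
    refine ⟨by rw [List.length_cons]; omega, fun heq => ?_⟩
    rw [List.length_cons] at heq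
    have hcard : χ'.support.card = l.length := by omega
    have hi' : i ∉ χ'.support := by
      intro hmem
      rw [Finset.insert_eq_of_mem hmem] at hsub
      have := Finset.card_le_card hsub
      omega
    have hS : χ.support = insert i χ'.support := by
      apply Finset.eq_of_subset_of_card_le hsub
      rw [Finset.card_insert_of_notMem hi']
      omega
    have hχi : χ i = a := by
      have := Finsupp.notMem_support_iff.mp hi'
      rw [hχ', Finsupp.sub_apply, Finsupp.single_eq_same] at this
      linarith
    rw [vals, hS, Finset.insert_val_of_notMem hi', Multiset.map_cons, hχi,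
      ← Multiset.cons_coe, ← h2 hcard, vals]
    congr 1
    apply Multiset.map_congr rfl
    intro j hj
    have hji : j ≠ i := fun h => hi' (by rw [← h]; exact hj)
    rw [hχ', Finsupp.sub_apply, Finsupp.single_eq_of_ne hji, sub_zero]

/-- The exponent with coordinates given by a list. -/
noncomputable def can : List ℤ → (ℕ →₀ ℤ)
  | [] => 0
  | a :: l => can l + Finsupp.single l.length a

theorem can_apply_of_le (l : List ℤ) : ∀ j, l.length ≤ j → can l j = 0 := by
  induction l with
  | nil => intro j _; rfl
  | cons a l ih =>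
    intro j hj
    rw [List.length_cons] at hj
    rw [can, Finsupp.add_apply, ih j (by omega), Finsupp.single_eq_of_ne (by omega)]
    rfl

theorem can_supp (l : List ℤ) (hl : ∀ a ∈ l, a ≠ 0) :
    (can l).support = range l.length := by
  classical
  induction l with
  | nil => simp [can]
  | cons a l ih =>
    have ih' := ih (fun b hb => hl b (List.mem_cons_of_mem _ hb))
    have ha : a ≠ 0 := hl a List.mem_cons_self
    ext j
    rw [Finsupp.mem_support_iff, can, Finsupp.add_apply, mem_range, List.length_cons]
    rcases lt_trichotomy j l.length with h | h | h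
    · rw [Finsupp.single_eq_of_ne (by omega), add_zero, ← Finsupp.mem_support_iff, ih',
        mem_range]
      omega
    · subst h
      rw [can_apply_of_le l _ le_rfl, Finsupp.single_eq_same, zero_add]
      simp [ha]
    · rw [can_apply_of_le l _ h.le, Finsupp.single_eq_of_ne (by omega), zero_add]
      simp only [ne_eq, not_true_eq_false, false_iff]
      omega

theorem can_gr (l : List ℤ) : gr (can l) = lw l := by
  classical
  induction l with
  | nil => simp [can, gr, lw]
  | cons a l ih =>
    have h := gr_sub_single_of_zero (χ := can l) (can_apply_of_le l l.length le_rfl) (-a)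
    have e : can l - Finsupp.single l.length (-a) = can (a :: l) := by
      rw [can, Finsupp.single_neg, sub_neg_eq_add]
    rw [e, ih, Int.natAbs_neg] at h
    rw [h, lw_cons, add_comm]

theorem cnt_can {N : ℕ} (l : List ℤ) (h : l.length ≤ N) : cnt N l (can l) ≠ 0 := by
  classical
  induction l with
  | nil => rw [cnt, can, if_pos rfl]; exact one_ne_zero
  | cons a l ih =>
    rw [List.length_cons] at h
    rw [cnt]
    have h1 := ih (by omega)
    intro h0
    rw [Finset.sum_eq_zero_iff] at h0
    apply h1
    have := h0 l.length (mem_range.mpr (by omega))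
    rwa [can, add_sub_cancel_right] at this

end Q4.JL
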