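import Pool.Agent.Q4.JL.Cnt

/-!
# Coefficients of the images of polynomials
-/

namespace Q4.JL

open Finset MvPolynomial

/-- The list of the indices of a monomial. -/
noncomputable def lst (s : Idx →₀ ℕ) : List ℤ := (s.toMultiset.toList).map (fun a : Idx => (a : ℤ))

theorem lst_ne (s : Idx →₀ ℕ) : ∀ a ∈ lst s, a ≠ 0 := by
  intro a ha
  rw [lst, List.mem_map] at ha
  obtain ⟨b, _, rfl⟩ := ha
  exact b.2

theorem coe_lst (s : Idx →₀ ℕ) :
    (lst s : Multiset ℤ) = s.toMultiset.map (fun a : Idx => (a : ℤ)) := by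
  rw [lst, ← Multiset.map_coe, Multiset.coe_toList]

theorem lst_inj {s t : Idx →₀ ℕ} (h : (lst s : Multiset ℤ) = lst t) : s = t := by
  rw [coe_lst, coe_lst] at h
  have := Multiset.map_injective (f := fun a : Idx => (a : ℤ)) Subtype.val_injective h
  classical
  have h2 := congrArg Multiset.toFinsupp this
  rwa [Finsupp.toMultiset_toFinsupp, Finsupp.toMultiset_toFinsupp] at h2

theorem lw_lst (s : Idx →₀ ℕ) : lw (lst s) = wt s := by
  have h1 : lw (lst s) = ((s.toMultiset).map fun a : Idx => (a : ℤ).natAbs).sum := by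
    have : lw (lst s) = ((lst s : Multiset ℤ).map Int.natAbs).sum := rfl
    rw [this, coe_lst, Multiset.map_map]; rfl
  rw [h1]
  clear h1
  induction s using Finsupp.induction_linear with
  | zero => simp
  | add s t hs ht => rw [map_add, Multiset.map_add, Multiset.sum_add, map_add, hs, ht]
  | single a m =>
    rw [Finsupp.toMultiset_single, Multiset.map_nsmul, Multiset.sum_nsmul, wt_single]
    simp

theorem prod_lst (N : ℕ) (s : Idx →₀ ℕ) :
    ((lst s).map (powerSum N)).prod = s.prod fun a m => powerSum N a ^ m := by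
  have h1 : ((lst s).map (powerSum N)).prod =
      ((s.toMultiset).map fun a : Idx => powerSum N a).prod := by
    have : ((lst s).map (powerSum N)).prod = ((lst s : Multiset ℤ).map (powerSum N)).prod := rfl
    rw [this, coe_lst, Multiset.map_map]; rfl
  rw [h1]
  clear h1
  induction s using Finsupp.induction_linear with
  | zero => simp
  | add s t hs ht =>
    rw [map_add, Multiset.map_add, Multiset.prod_add, Finsupp.prod_add_index', hs, ht]
    · intro a; exact pow_zero _
    · intro a b c; exact pow_add _ _ _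
  | single a m =>
    rw [Finsupp.toMultiset_single, Multiset.map_nsmul, Multiset.prod_nsmul,
      Finsupp.prod_single_index (h := fun (a : Idx) (m : ℕ) => powerSum N a ^ m) (pow_zero _)]
    simp

theorem phi_monomial (N : ℕ) (s : Idx →₀ ℕ) (c : ℂ) :
    phi N (monomial s c) = c • ((lst s).map (powerSum N)).prod := by
  rw [phi, aeval_monomial, prod_lst, Algebra.smul_def]

/-- The coefficients of the image of a polynomial. -/
theorem phi_coeff (N : ℕ) (F : MvPolynomial Idx ℂ) {S : Finset (Idx →₀ ℕ)} (hS : F.support ⊆ S)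
    (χ : ℕ →₀ ℤ) :
    (phi N F).coeff χ = ∑ s ∈ S, F.coeff s * (cnt N (lst s) χ : ℂ) := by
  rw [← Finset.sum_subset hS]
  · conv_lhs => rw [F.as_sum]
    rw [map_sum, coeff_sum']
    apply Finset.sum_congr rfl
    intro s _
    rw [phi_monomial, coeff_smul', coeff_prod]
  · intro s _ hs
    rw [notMem_support_iff.mp hs, zero_mul]

theorem phi_coeff_zero {N : ℕ} {F : MvPolynomial Idx ℂ} {χ : ℕ →₀ ℤ}
    (h : ∀ s, F.coeff s ≠ 0 → wt s < gr χ) : (phi N F).coeff χ = 0 := by
  rw [phi_coeff N F le_rfl]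
  apply Finset.sum_eq_zero
  intro s hs
  by_contra hc
  have h1 := h s (left_ne_zero_of_mul hc)
  have h2 := right_ne_zero_of_mul hc
  have h3 : cnt N (lst s) χ ≠ 0 := by exact_mod_cast h2
  have h4 := cnt_gr h3
  rw [lw_lst] at h4
  omega

theorem phi_coeff_supp {N : ℕ} {F : MvPolynomial Idx ℂ} {χ : ℕ →₀ ℤ}
    (h : (phi N F).coeff χ ≠ 0) : ∀ j, N ≤ j → χ j = 0 := by
  rw [phi_coeff N F le_rfl] at h
  obtain ⟨s, _, hs⟩ := Finset.exists_ne_zero_of_sum_ne_zero h
  have h2 := right_ne_zero_of_mul hs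
  exact cnt_supp (by exact_mod_cast h2)

theorem phi_coeff_stable {N₀ N : ℕ} (hN : N₀ ≤ N) {F : MvPolynomial Idx ℂ} {n : ℕ}
    (hF : Gr n F) {χ : ℕ →₀ ℤ} (hχ : ∀ j, N₀ ≤ j → χ j = 0) (hg : n ≤ gr χ) :
    (phi N F).coeff χ = (phi N₀ F).coeff χ := by
  rw [phi_coeff N F le_rfl, phi_coeff N₀ F le_rfl]
  apply Finset.sum_congr rfl
  intro s hs
  have h1 := hF s (mem_support_iff.mp hs)
  have h2 : wt s ≤ n := by exact_mod_cast h1
  rw [cnt_stable hN (lst_ne s) hχ (by rw [lw_lst]; omega)]

theorem length_le_lw (l : List ℤ) (hl : ∀ a ∈ l, a ≠ 0) : l.length ≤ lw l := by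
  induction l with
  | nil => exact Nat.zero_le _
  | cons a l ih =>
    have := Int.natAbs_pos.mpr (hl a List.mem_cons_self)
    have := ih (fun b hb => hl b (List.mem_cons_of_mem _ hb))
    rw [lw_cons, List.length_cons]; omega

/-- The top weight of a nonzero polynomial, and an exponent of that weight which occurs in all
images. -/
theorem exists_top {G : MvPolynomial Idx ℂ} (hG : G ≠ 0) :
    ∃ w : ℕ, Gr w G ∧ (∃ s, G.coeff s ≠ 0 ∧ wt s = w) ∧
      ∃ χ : ℕ →₀ ℤ, gr χ = w ∧ (∀ j, w ≤ j → χ j = 0) ∧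
        ∀ N, w ≤ N → (phi N G).coeff χ ≠ 0 := by
  classical
  have hne : G.support.Nonempty := support_nonempty.mpr hG
  obtain ⟨s₀, hs₀, hmax⟩ := Finset.exists_max_image G.support wt hne
  have hne2 : (G.support.filter fun s => wt s = wt s₀).Nonempty :=
    ⟨s₀, Finset.mem_filter.mpr ⟨hs₀, rfl⟩⟩
  obtain ⟨s, hs, hmax2⟩ := Finset.exists_max_image _ (fun s => (lst s).length) hne2
  rw [Finset.mem_filter] at hs
  have hlen : (lst s).length ≤ wt s₀ := by
    rw [← hs.2, ← lw_lst]; exact length_le_lw _ (lst_ne s)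
  refine ⟨wt s₀, ?_, ⟨s₀, mem_support_iff.mp hs₀, rfl⟩, can (lst s), ?_, ?_, ?_⟩
  · intro t ht
    exact_mod_cast hmax t (mem_support_iff.mpr ht)
  · rw [can_gr, lw_lst, hs.2]
  · intro j hj
    exact can_apply_of_le _ j (by omega)
  · intro N hN
    rw [phi_coeff N G le_rfl, Finset.sum_eq_single s]
    · apply mul_ne_zero (mem_support_iff.mp hs.1)
      exact_mod_cast cnt_can (lst s) (by omega)
    · intro t ht hts
      by_contra hc
      have h2 : cnt N (lst t) (can (lst s)) ≠ 0 := by
        exact_mod_cast right_ne_zero_of_mul hc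
      have h3 := cnt_gr h2
      rw [can_gr, lw_lst, lw_lst, hs.2] at h3
      have h4 := hmax t ht
      have h5 := hmax2 t (Finset.mem_filter.mpr ⟨ht, le_antisymm h4 h3⟩)
      obtain ⟨h6, h7⟩ := cnt_card h2
      rw [can_supp _ (lst_ne s), card_range] at h6 h7
      have h8 : (lst s).length = (lst t).length := by
        have : (lst t).length ≤ (lst s).length := h5
        omega
      have h9 := h7 h8
      apply hts
      symm
      apply lst_inj
      rw [← h9]
      -- the values of the canonical exponent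
      have key : cnt (lst s).length (lst s) (can (lst s)) ≠ 0 := cnt_can _ le_rfl
      have h10 := (cnt_card key).2 (by rw [can_supp _ (lst_ne s), card_range])
      exact h10.symm
    · intro h; exact absurd hs.1 h

theorem phi_inj {N w : ℕ} {F : MvPolynomial Idx ℂ} (hF : Gr w F) (hN : w ≤ N)
    (h0 : phi N F = 0) : F = 0 := by
  by_contra hne
  obtain ⟨w', _, ⟨s, hs, hsw⟩, χ, _, _, h⟩ := exists_top hne
  have h1 : w' ≤ w := by
    have := hF s hs
    rw [hsw] at this
    exact_mod_cast this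
  apply h N (by omega)
  rw [h0]; rfl

end Q4.JL
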