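import Mathlib

/-!
# Jack-Laurent symmetric functions: definitions

Laurent polynomials in the variables `x 0, x 1, …` are elements of `Lau`; the ones which involve
only `x 0, …, x (N - 1)` are those whose exponents vanish from `N` on.
-/

namespace Q4.JL

open Finset

/-- Complex Laurent polynomials in the variables `x 0, x 1, x 2, …`; the exponents are finitely
supported functions `ℕ → ℤ`. -/
abbrev Lau : Type := AddMonoidAlgebra ℂ (ℕ →₀ ℤ)

/-- The Laurent monomial `(x i) ^ a`. -/
noncomputable def xpow (i : ℕ) (a : ℤ) : Lau :=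
  AddMonoidAlgebra.single (Finsupp.single i a) 1

/-- The operator `x i * ∂ / ∂ (x i)`: the coefficient at the exponent `χ` is multiplied
by `χ i`. -/
noncomputable def euler (i : ℕ) (f : Lau) : Lau :=
  AddMonoidAlgebra.ofCoeff
    (Finsupp.onFinset f.coeff.support (fun χ => (χ i : ℂ) * f.coeff χ) (by
      intro χ h
      rw [Finsupp.mem_support_iff]
      rintro h0
      exact h (by rw [h0, mul_zero])))

/-- The exponent `(ν 0, …, ν (N - 1))`. -/
noncomputable def expo (N : ℕ) (ν : ℕ → ℤ) : ℕ →₀ ℤ :=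
  ∑ i ∈ range N, Finsupp.single i (ν i)

/-- `P` is the monic Jack polynomial in `N` variables of the partition `(ν 0, …, ν (N - 1))` with
Jack parameter `-1 / k`: symmetric in `x 0, …, x (N - 1)`, equal to the monomial symmetric
polynomial of `ν` plus a combination of those of smaller partitions in the dominance order, and an
eigenvector of the operator
`∑ i, (x i ∂ i) ^ 2 - k ∑ i < j, (x i + x j) / (x i - x j) (x i ∂ i - x j ∂ j)`. -/
structure IsJack (k : ℂ) (N : ℕ) (ν : ℕ → ℤ) (P : Lau) : Prop where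
  /-- symmetric in the first `N` variables -/
  symm : ∀ σ : Equiv.Perm ℕ, (∀ i, N ≤ i → σ i = i) →
    ∀ χ : ℕ →₀ ℤ, P.coeff (χ.mapDomain σ) = P.coeff χ
  /-- the coefficient of the leading monomial is `1` -/
  monic : P.coeff (expo N ν) = 1
  /-- all monomials involve only the first `N` variables and are smaller than `ν` in the
  dominance order -/
  dom : ∀ χ ∈ P.coeff.support, (∀ i, N ≤ i → χ i = 0) ∧
    (∀ T : Finset ℕ, T ⊆ range N → ∑ i ∈ T, χ i ≤ ∑ i ∈ range T.card, ν i) ∧
    ∑ i ∈ range N, χ i = ∑ i ∈ range N, ν i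
  /-- eigenvector of the Calogero-Moser-Sutherland operator; `g i j` is
  `(x i + x j) / (x i - x j) (x i ∂ i - x j ∂ j) P` -/
  eigen : ∃ (E : ℂ) (g : ℕ → ℕ → Lau),
    (∀ i j, i < j → j < N →
      (xpow i 1 - xpow j 1) * g i j = (xpow i 1 + xpow j 1) * (euler i P - euler j P)) ∧
    ∑ i ∈ range N, euler i (euler i P) - k • ∑ j ∈ range N, ∑ i ∈ range j, g i j = E • P

/-- `Q` is the Jack Laurent polynomial `(x 0 ⋯ x (N - 1)) ^ (χ (N - 1)) P` of the non-increasing
sequence of integers `(χ 0, …, χ (N - 1))`, where `P` is the Jack polynomial of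
`(χ 0 - χ (N - 1), …, χ (N - 1) - χ (N - 1))`. -/
def IsLaurentJack (k : ℂ) (N : ℕ) (χ : ℕ → ℤ) (Q : Lau) : Prop :=
  ∃ P : Lau, IsJack k N (fun i => χ i - χ (N - 1)) P ∧
    Q = AddMonoidAlgebra.single (expo N fun _ => χ (N - 1)) 1 * P

/-- The indices of the power sums `p a`, `a` a nonzero integer. -/
abbrev Idx : Type := {a : ℤ // a ≠ 0}

/-- The power sum `(x 0) ^ a + … + (x (N - 1)) ^ a`. -/
noncomputable def powerSum (N : ℕ) (a : ℤ) : Lau := ∑ i ∈ range N, xpow i a

/-- The homomorphism `φ N` from the polynomial algebra in the `p a`, `a ≠ 0`, to the Laurent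
polynomials in `x 0, …, x (N - 1)`. -/
noncomputable def phi (N : ℕ) : MvPolynomial Idx ℂ →ₐ[ℂ] Lau :=
  MvPolynomial.aeval fun a => powerSum N a

/-- The value at the parameter `p₀ = t` of an element of the polynomial algebra in the `p a`,
`a ≠ 0`, whose coefficients are rational functions of `p₀`. -/
noncomputable def specialise (F : MvPolynomial Idx (RatFunc ℂ)) (t : ℂ) : MvPolynomial Idx ℂ :=
  ∑ s ∈ F.support, MvPolynomial.monomial s ((F.coeff s).eval (RingHom.id ℂ) t)

/-- For partitions `lam` of length `r` and `mu` of length `s`, `r + s ≤ N`: the sequence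
`(lam_1, …, lam_r, 0, …, 0, - mu_s, …, - mu_1)` of length `N` (indexed by `0, …, N - 1`). -/
def chi (N : ℕ) (lam mu : YoungDiagram) (i : ℕ) : ℤ :=
  (lam.rowLen i : ℤ) - (mu.rowLen (N - 1 - i) : ℤ)

/-- The number of parts of a partition. -/
def len (lam : YoungDiagram) : ℕ := lam.colLen 0

/-- `F` is the Jack-Laurent symmetric function of the bipartition `(lam, mu)`: the coefficients
are rational functions of `p₀`, and for every `N ≥ 1`, after the substitution `p₀ = N`, the image
of `F` under `φ N` is the Jack Laurent polynomial of `chi N lam mu` if `(lam, mu)` has at most `N`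
parts, and `0` otherwise. -/
def IsJackLaurent (k : ℂ) (lam mu : YoungDiagram) (F : MvPolynomial Idx (RatFunc ℂ)) : Prop :=
  ∀ N : ℕ, 1 ≤ N →
    (∀ s, (F.coeff s).denom.eval (N : ℂ) ≠ 0) ∧
    (len lam + len mu ≤ N →
      IsLaurentJack k N (chi N lam mu) (phi N (specialise F N))) ∧
    (N < len lam + len mu → phi N (specialise F N) = 0)

end Q4.JL
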