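import Pool.Agent.Q4.JL.Coef

/-!
# The dominance order and sums of squares
-/

namespace Q4.JL

open Finset

/-- Abel summation. -/
theorem abel_nonneg (N : ℕ) (b A : ℕ → ℤ) (hb : ∀ i, i + 1 < N → b (i + 1) ≤ b i)
    (hA : ∀ m, m ≤ N → 0 ≤ A m) (h0 : A 0 = 0) (hN : A N = 0) :
    0 ≤ ∑ i ∈ range N, b i * (A (i + 1) - A i) := by
  rcases Nat.eq_zero_or_pos N with hz | hp
  · subst hz; simp
  have key : ∀ m, m + 1 ≤ N → b m * A (m + 1) ≤ ∑ i ∈ range (m + 1), b i * (A (i + 1) - A i) := by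
    intro m
    induction m with
    | zero => intro _; simp [h0]
    | succ m ih =>
      intro hm
      rw [Finset.sum_range_succ]
      have h1 := ih (by omega)
      have h2 := mul_le_mul_of_nonneg_right (hb m (by omega)) (hA (m + 1) (by omega))
      nlinarith
  have := key (N - 1) (by omega)
  rw [show N - 1 + 1 = N by omega, hN, mul_zero] at this
  exact this

theorem sum_range_perm {N : ℕ} (σ : Equiv.Perm ℕ) (hσ : ∀ i, N ≤ i → σ i = i) (f : ℕ → ℤ) :
    ∑ i ∈ range N, f (σ i) = ∑ i ∈ range N, f i := by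
  have hlt : ∀ i, i < N → σ i < N := by
    intro i hi
    by_contra hc
    push Not at hc
    have := σ.injective (hσ (σ i) hc)
    omega
  apply Finset.sum_bij (fun i _ => σ i)
  · intro i hi
    rw [mem_range] at hi ⊢
    exact hlt i hi
  · intro i _ j _ h
    exact σ.injective h
  · intro j hj
    rw [mem_range] at hj
    refine ⟨σ.symm j, ?_, σ.apply_symm_apply j⟩
    rw [mem_range]
    by_contra hc
    push Not at hc
    have := hσ _ hc
    rw [σ.apply_symm_apply] at this
    omega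
  · intro i _; rfl

/-- Exponents dominated by a non-increasing sequence have a smaller sum of squares, and equality
holds only for rearrangements. -/
theorem dom_sq {N : ℕ} {χ : ℕ → ℤ} {ψ : ℕ →₀ ℤ}
    (hT : ∀ T : Finset ℕ, T ⊆ range N → ∑ i ∈ T, ψ i ≤ ∑ i ∈ range T.card, χ i)
    (htot : ∑ i ∈ range N, ψ i = ∑ i ∈ range N, χ i) :
    sq N ψ ≤ ∑ i ∈ range N, χ i ^ 2 ∧
      (sq N ψ = ∑ i ∈ range N, χ i ^ 2 → ∃ σ : Equiv.Perm ℕ, (∀ i, N ≤ i → σ i = i) ∧
        ∀ i, i < N → ψ (σ i) = χ i) := by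
  classical
  -- sort
  obtain ⟨σ, hσ, hanti⟩ : ∃ σ : Equiv.Perm ℕ, (∀ i, N ≤ i → σ i = i) ∧
      ∀ i, i + 1 < N → ψ (σ (i + 1)) ≤ ψ (σ i) := by
    let f : Fin N → ℤ := fun i => -ψ (i : ℕ)
    let e := Fin.equivSubtype (n := N)
    refine ⟨(Tuple.sort f).extendDomain e, ?_, ?_⟩
    · intro i hi
      exact Equiv.Perm.extendDomain_apply_not_subtype _ _ (by omega)
    · intro i hi
      have h1 : ∀ (j : ℕ) (hj : j < N), (Tuple.sort f).extendDomain e j =
          ((Tuple.sort f ⟨j, hj⟩ : Fin N) : ℕ) := by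
        intro j hj
        have := Equiv.Perm.extendDomain_apply_image (Tuple.sort f) e ⟨j, hj⟩
        exact this
      rw [h1 i (by omega), h1 (i + 1) hi]
      have hm := Tuple.monotone_sort f
      have h2 : (⟨i, by omega⟩ : Fin N) ≤ ⟨i + 1, hi⟩ := by
        rw [Fin.mk_le_mk]; omega
      have h3 := hm h2
      simp only [Function.comp_apply, f] at h3
      linarith
  set b : ℕ → ℤ := fun i => ψ (σ i) with hb
  set A : ℕ → ℤ := fun m => ∑ i ∈ range m, (χ i - b i) with hAdef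
  have hAs : ∀ m, A (m + 1) - A m = χ m - b m := by
    intro m; simp only [hAdef]; rw [Finset.sum_range_succ]; ring
  have hlt : ∀ i, i < N → σ i < N := by
    intro i hi
    by_contra hc
    push Not at hc
    have := σ.injective (hσ (σ i) hc)
    omega
  have hA : ∀ m, m ≤ N → 0 ≤ A m := by
    intro m hm
    have h1 := hT ((range m).map σ.toEmbedding) (by
      intro j hj
      rw [Finset.mem_map] at hj
      obtain ⟨i, hi, rfl⟩ := hj
      rw [mem_range] at hi ⊢
      exact hlt i (by omega))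
    rw [Finset.sum_map, Finset.card_map, card_range] at h1
    simp only [hAdef]
    rw [Finset.sum_sub_distrib]
    simp only [hb]
    have h2 : ∑ i ∈ range m, ψ (σ.toEmbedding i) = ∑ i ∈ range m, ψ (σ i) := rfl
    rw [h2] at h1
    linarith
  have hAN : A N = 0 := by
    simp only [hAdef]
    rw [Finset.sum_sub_distrib]
    simp only [hb]
    rw [sum_range_perm σ hσ, htot, sub_self]
  have habel := abel_nonneg N b A hanti hA (by simp [hAdef]) hAN
  have hsq : sq N ψ = ∑ i ∈ range N, b i ^ 2 := by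
    rw [sq]
    exact (sum_range_perm σ hσ fun i => ψ i ^ 2).symm
  have hexp : ∑ i ∈ range N, χ i ^ 2 = ∑ i ∈ range N, b i ^ 2 +
      2 * ∑ i ∈ range N, b i * (A (i + 1) - A i) + ∑ i ∈ range N, (χ i - b i) ^ 2 := by
    rw [Finset.mul_sum, ← Finset.sum_add_distrib, ← Finset.sum_add_distrib]
    apply Finset.sum_congr rfl
    intro i _
    rw [hAs]; ring
  have hpos : 0 ≤ ∑ i ∈ range N, (χ i - b i) ^ 2 :=
    Finset.sum_nonneg fun i _ => sq_nonneg _
  refine ⟨by rw [hsq, hexp]; linarith, fun heq => ⟨σ, hσ, fun i hi => ?_⟩⟩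
  rw [hsq, hexp] at heq
  have hz : ∑ i ∈ range N, (χ i - b i) ^ 2 = 0 := by linarith
  rw [Finset.sum_eq_zero_iff_of_nonneg (fun i _ => sq_nonneg _)] at hz
  have h1 := hz i (mem_range.mpr hi)
  have h2 : χ i - b i = 0 := by
    rwa [sq_eq_zero_iff] at h1
  have h3 : b i = χ i := by linarith
  exact h3

theorem expo_apply {N : ℕ} (ν : ℕ → ℤ) (i : ℕ) : expo N ν i = if i < N then ν i else 0 := by
  rw [expo, Finsupp.finsetSum_apply]
  by_cases h : i < N
  · rw [if_pos h, Finset.sum_eq_single i]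
    · rw [Finsupp.single_eq_same]
    · intro j _ hj; rw [Finsupp.single_eq_of_ne (Ne.symm hj)]
    · intro hi; exact absurd (mem_range.mpr h) hi
  · rw [if_neg h]
    apply Finset.sum_eq_zero
    intro j hj
    rw [mem_range] at hj
    rw [Finsupp.single_eq_of_ne (by omega)]

theorem bb_succ {N : ℕ} {ψ : ℕ →₀ ℤ} (h : ∀ i, N ≤ i → ψ i = 0) :
    bb (N + 1) ψ = bb N ψ + gr ψ := by
  have h1 : ψ.support ⊆ range N := by
    intro i hi
    rw [mem_range]
    by_contra hc
    push Not at hc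
    exact Finsupp.mem_support_iff.mp hi (h i hc)
  rw [bb, bb, Finset.sum_range_succ, gr_eq h1]
  congr 1
  push_cast
  apply Finset.sum_congr rfl
  intro i _
  rw [h N le_rfl, sub_zero]

theorem bb_add {N₀ : ℕ} {ψ : ℕ →₀ ℤ} (h : ∀ i, N₀ ≤ i → ψ i = 0) (d : ℕ) :
    bb (N₀ + d) ψ = bb N₀ ψ + d * gr ψ := by
  induction d with
  | zero => simp
  | succ d ih =>
    rw [← add_assoc, bb_succ (fun i hi => h i (by omega)), ih]
    push_cast; ring

theorem sq_of_supp {N₀ N : ℕ} (hN : N₀ ≤ N) {ψ : ℕ →₀ ℤ} (h : ∀ i, N₀ ≤ i → ψ i = 0) :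
    sq N ψ = sq N₀ ψ := by
  rw [sq, sq]
  symm
  apply Finset.sum_subset (Finset.range_subset_range.mpr hN)
  intro i _ hi
  rw [mem_range, not_lt] at hi
  rw [h i hi]; ring

/-- Raising an exponent increases the sum of squares. -/
theorem sq_line {N : ℕ} {ψ : ℕ →₀ ℤ} {i j : ℕ} (hi : i < N) (hj : j < N) (hij : i ≠ j) (l : ℤ) :
    sq N (line ψ i j l) = sq N ψ + 2 * l * (ψ i - ψ j) + 2 * l ^ 2 := by
  classical
  have h : ∀ f : ℕ → ℤ, ∑ m ∈ range N, f m =
      f i + f j + ∑ m ∈ ((range N).erase i).erase j, f m := by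
    intro f
    rw [← Finset.add_sum_erase _ _ (mem_range.mpr hi),
      ← Finset.add_sum_erase _ _ (Finset.mem_erase.mpr ⟨Ne.symm hij, mem_range.mpr hj⟩)]
    ring
  rw [sq, sq, h, h (fun m => ψ m ^ 2), line_apply_left ψ hij, line_apply_right ψ hij]
  have h2 : ∑ m ∈ ((range N).erase i).erase j, (line ψ i j l) m ^ 2 =
      ∑ m ∈ ((range N).erase i).erase j, ψ m ^ 2 := by
    apply Finset.sum_congr rfl
    intro m hm
    rw [Finset.mem_erase, Finset.mem_erase] at hm
    rw [line_apply_of_ne ψ hm.2.1 hm.1]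
  rw [h2]; ring

/-- Raising an exponent does not decrease the sum of the absolute values. -/
theorem gr_line {ψ : ℕ →₀ ℤ} {i j : ℕ} (hij : i ≠ j) (h : ψ j ≤ ψ i) {l : ℤ} (hl : 0 ≤ l) :
    gr ψ ≤ gr (line ψ i j l) := by
  classical
  set S := insert i (insert j (ψ.support ∪ (line ψ i j l).support)) with hS
  have h1 : ψ.support ⊆ S := by
    intro m hm
    rw [hS, Finset.mem_insert, Finset.mem_insert, Finset.mem_union]
    exact Or.inr (Or.inr (Or.inl hm))
  have h2 : (line ψ i j l).support ⊆ S := by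
    intro m hm
    rw [hS, Finset.mem_insert, Finset.mem_insert, Finset.mem_union]
    exact Or.inr (Or.inr (Or.inr hm))
  have hi : i ∈ S := by rw [hS]; exact Finset.mem_insert_self _ _
  have hj : j ∈ S.erase i := by
    rw [Finset.mem_erase, hS, Finset.mem_insert, Finset.mem_insert]
    exact ⟨Ne.symm hij, Or.inr (Or.inl rfl)⟩
  rw [gr_eq h1, gr_eq h2, ← Finset.add_sum_erase _ _ hi, ← Finset.add_sum_erase _ _ hj,
    ← Finset.add_sum_erase S _ hi, ← Finset.add_sum_erase (S.erase i) _ hj,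
    line_apply_left ψ hij, line_apply_right ψ hij]
  have h3 : ∑ m ∈ (S.erase i).erase j, ((line ψ i j l) m).natAbs =
      ∑ m ∈ (S.erase i).erase j, (ψ m).natAbs := by
    apply Finset.sum_congr rfl
    intro m hm
    rw [Finset.mem_erase, Finset.mem_erase] at hm
    rw [line_apply_of_ne ψ hm.2.1 hm.1]
  rw [h3]
  omega

end Q4.JL
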