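import Pool.Agent.Q4.JL.Op

/-!
# The grading of the polynomial algebra
-/

namespace Q4.JL

open Finset MvPolynomial

/-- The weight of a monomial: `p a` has weight `|a|`. -/
noncomputable def wt : (Idx →₀ ℕ) →+ ℕ := Finsupp.weight fun a : Idx => (a : ℤ).natAbs

theorem wt_single (a : Idx) (m : ℕ) : wt (Finsupp.single a m) = m * (a : ℤ).natAbs := by
  rw [wt, Finsupp.weight_single, smul_eq_mul]

/-- All monomials have weight at most `c`. -/
def Gr (c : ℤ) (F : MvPolynomial Idx ℂ) : Prop := ∀ s, F.coeff s ≠ 0 → (wt s : ℤ) ≤ c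

theorem Gr.add {c : ℤ} {F G : MvPolynomial Idx ℂ} (hF : Gr c F) (hG : Gr c G) :
    Gr c (F + G) := by
  intro s hs
  by_cases h : F.coeff s = 0
  · apply hG; intro h'; apply hs; rw [coeff_add, h, h', add_zero]
  · exact hF s h

theorem Gr.zero (c : ℤ) : Gr c 0 := by
  intro s hs; exact absurd (coeff_zero s) hs

theorem Gr.smul {c : ℤ} {F : MvPolynomial Idx ℂ} (hF : Gr c F) (r : ℂ) : Gr c (r • F) := by
  intro s hs
  apply hF
  intro h; apply hs; rw [coeff_smul, h, smul_zero]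

theorem Gr.neg {c : ℤ} {F : MvPolynomial Idx ℂ} (hF : Gr c F) : Gr c (-F) := by
  have := hF.smul (-1)
  rwa [neg_one_smul] at this

theorem Gr.sub {c : ℤ} {F G : MvPolynomial Idx ℂ} (hF : Gr c F) (hG : Gr c G) :
    Gr c (F - G) := by
  rw [sub_eq_add_neg]; exact hF.add hG.neg

theorem Gr.sum {ι : Type*} {c : ℤ} (S : Finset ι) {F : ι → MvPolynomial Idx ℂ}
    (hF : ∀ i ∈ S, Gr c (F i)) : Gr c (∑ i ∈ S, F i) := by
  classical
  induction S using Finset.induction_on with
  | empty => rw [Finset.sum_empty]; exact Gr.zero c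
  | insert i S hi ih =>
    rw [Finset.sum_insert hi]
    exact (hF i (Finset.mem_insert_self i S)).add
      (ih fun j hj => hF j (Finset.mem_insert_of_mem hj))

theorem Gr.mono {c d : ℤ} {F : MvPolynomial Idx ℂ} (hF : Gr c F) (h : c ≤ d) : Gr d F :=
  fun s hs => (hF s hs).trans h

theorem Gr.mul {c d : ℤ} {F G : MvPolynomial Idx ℂ} (hF : Gr c F) (hG : Gr d G) :
    Gr (c + d) (F * G) := by
  classical
  intro s hs
  rw [coeff_mul] at hs
  obtain ⟨⟨t, u⟩, ht, hne⟩ := Finset.exists_ne_zero_of_sum_ne_zero hs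
  rw [Finset.HasAntidiagonal.mem_antidiagonal] at ht
  simp only at ht hne
  have h1 := hF t (left_ne_zero_of_mul hne)
  have h2 := hG u (right_ne_zero_of_mul hne)
  rw [← ht, map_add]
  push_cast
  linarith

theorem Gr.X (a : Idx) : Gr ((a : ℤ).natAbs : ℤ) (MvPolynomial.X a) := by
  classical
  intro s hs
  rw [coeff_X] at hs
  split_ifs at hs with h
  · rw [← h, wt_single, one_mul]
  · exact absurd rfl hs

theorem Gr.XX (a : ℤ) : Gr (a.natAbs : ℤ) (XX a) := by
  rw [JL.XX]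
  split_ifs with h
  · exact Gr.zero _
  · exact Gr.X ⟨a, h⟩

theorem Gr.pderiv {c : ℤ} {F : MvPolynomial Idx ℂ} (hF : Gr c F) (a : Idx) :
    Gr (c - ((a : ℤ).natAbs : ℤ)) (pderiv a F) := by
  intro s hs
  rw [coeff_pderiv] at hs
  have := hF _ (left_ne_zero_of_mul hs)
  rw [map_add, wt_single, one_mul] at this
  push_cast at this ⊢
  linarith

theorem Gr.L0 {c : ℤ} {F : MvPolynomial Idx ℂ} (hF : Gr c F) (k : ℂ) (A : Finset Idx) :
    Gr c (L0 k A F) := by
  simp only [JL.L0, LinearMap.coe_mk, AddHom.coe_mk]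
  refine Gr.sub (Gr.add (Gr.sum _ fun a _ => ?_) (Gr.sum _ fun a _ => Gr.sum _ fun b _ => ?_))
    (Gr.smul (Gr.sum _ fun a _ => Gr.smul ?_ _) _)
  · exact ((Gr.X a).mul (hF.pderiv a)).smul _ |>.mono (by omega)
  · refine (((Gr.XX _).mul ((hF.pderiv a).pderiv b)).smul _).mono ?_
    have := Int.natAbs_add_le (a : ℤ) (b : ℤ)
    omega
  · refine (Gr.mul (c := ((a : ℤ).natAbs : ℤ)) ?_ (hF.pderiv a)).mono (by omega)
    refine Gr.add (((Gr.X a).smul _).neg) (Gr.sum _ fun l hl => ?_)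
    refine ((Gr.XX _).mul (Gr.XX _)).mono ?_
    rw [mem_range] at hl
    have h1 : ((a : ℤ).sign).natAbs ≤ 1 := by
      rcases lt_trichotomy (a : ℤ) 0 with h | h | h
      · rw [Int.sign_eq_neg_one_of_neg h]; rfl
      · exact absurd h a.2
      · rw [Int.sign_eq_one_of_pos h]; rfl
    rw [Int.natAbs_mul, Int.natAbs_mul, Int.natAbs_natCast, Int.natAbs_natCast]
    have h2 : ((a : ℤ).sign).natAbs * (l + 1) ≤ 1 * (l + 1) := Nat.mul_le_mul_right _ h1
    have h3 : ((a : ℤ).sign).natAbs * ((a : ℤ).natAbs - 1 - l) ≤ 1 * ((a : ℤ).natAbs - 1 - l) :=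
      Nat.mul_le_mul_right _ h1
    omega

/-- Euler's identity. -/
theorem euler_id (A : Finset Idx) {F : MvPolynomial Idx ℂ}
    (hF : F ∈ supported ℂ (A : Set Idx)) (s : Idx →₀ ℕ) :
    (∑ a ∈ A, (((a : ℤ).natAbs : ℕ) : ℂ) • (X a * pderiv a F)).coeff s =
      (wt s : ℂ) * F.coeff s := by
  classical
  have h1 : ∀ a : Idx, (X a * pderiv a F).coeff s = (s a : ℂ) * F.coeff s := by
    intro a
    rw [coeff_X_mul']
    split_ifs with h
    · rw [coeff_pderiv]
      have hs : s - Finsupp.single a 1 + Finsupp.single a 1 = s := by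
        apply tsub_add_cancel_of_le
        rw [Finsupp.single_le_iff]
        exact Nat.one_le_iff_ne_zero.mpr (Finsupp.mem_support_iff.mp h)
      rw [hs]
      have h2 : (((s - Finsupp.single a 1 : Idx →₀ ℕ) a : ℕ) : ℂ) + 1 = ((s a : ℕ) : ℂ) := by
        have := DFunLike.congr_fun hs a
        rw [Finsupp.add_apply, Finsupp.single_eq_same] at this
        exact_mod_cast this
      rw [h2]; ring
    · rw [Finsupp.notMem_support_iff.mp h]; simp
  rw [coeff_sum, Finset.sum_congr rfl (fun a _ => by rw [coeff_smul, h1 a])]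
  by_cases hc : F.coeff s = 0
  · rw [hc, mul_zero]
    apply Finset.sum_eq_zero
    intro a _
    rw [mul_zero, smul_zero]
  · have hsup : s.support ⊆ A := by
      intro a ha
      have : a ∈ F.vars := by
        rw [mem_vars_iff_mem_support]
        exact ⟨s, mem_support_iff.mpr hc, ha⟩
      have h3 := mem_supported.mp hF
      exact_mod_cast h3 (by exact_mod_cast this)
    have h4 : wt s = ∑ a ∈ A, s a * (a : ℤ).natAbs := by
      rw [wt, Finsupp.weight_apply, Finsupp.sum_of_support_subset _ hsup]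
      · rfl
      · intro i _; rw [zero_smul]
    rw [h4]
    push_cast
    rw [Finset.sum_mul]
    apply Finset.sum_congr rfl
    intro a _
    rw [smul_eq_mul]; ring

/-- The operator `L1` multiplies the top part by `-k` times the weight. -/
theorem L1_coeff {c : ℤ} {F : MvPolynomial Idx ℂ} (hc : Gr c F) (k : ℂ) (A : Finset Idx)
    (hF : F ∈ supported ℂ (A : Set Idx)) {s : Idx →₀ ℕ} (hs : c ≤ wt s) :
    (L1 k A F).coeff s = -k * (wt s : ℂ) * F.coeff s := by
  have h1 : Gr (c - 1) (∑ a ∈ A, ∑ b ∈ A,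
      (if (a : ℤ) + b = 0 then ((a : ℤ) : ℂ) * ((b : ℤ) : ℂ) else 0) •
      pderiv b (pderiv a F)) := by
    refine Gr.sum _ fun a _ => Gr.sum _ fun b _ => ((hc.pderiv a).pderiv b).smul _ |>.mono ?_
    have := Int.natAbs_pos.mpr a.2
    omega
  have h2 : (∑ a ∈ A, ∑ b ∈ A,
      (if (a : ℤ) + b = 0 then ((a : ℤ) : ℂ) * ((b : ℤ) : ℂ) else 0) •
      pderiv b (pderiv a F)).coeff s = 0 := by
    by_contra hne
    have := h1 s hne
    omega
  simp only [L1, LinearMap.coe_mk, AddHom.coe_mk]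
  rw [coeff_add, h2, add_zero, coeff_neg, coeff_smul, euler_id A hF, smul_eq_mul]
  ring

theorem Gr.L1 {c : ℤ} {F : MvPolynomial Idx ℂ} (hF : Gr c F) (k : ℂ) (A : Finset Idx) :
    Gr c (L1 k A F) := by
  simp only [JL.L1, LinearMap.coe_mk, AddHom.coe_mk]
  refine Gr.add (Gr.neg (Gr.smul (Gr.sum _ fun a _ => Gr.smul ?_ _) _))
    (Gr.sum _ fun a _ => Gr.sum _ fun b _ => Gr.smul ?_ _)
  · exact ((Gr.X a).mul (hF.pderiv a)).mono (by omega)
  · exact ((hF.pderiv a).pderiv b).mono (by omega)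

end Q4.JL
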