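import Pool.Agent.Q4.JL.Dom

/-!
# Properties of Jack Laurent polynomials
-/

namespace Q4.JL

open Finset

/-- The properties of a Jack Laurent polynomial which are used. -/
structure WJ (k : ℂ) (N : ℕ) (χ : ℕ → ℤ) (Q : Lau) : Prop where
  symm : ∀ σ : Equiv.Perm ℕ, (∀ i, N ≤ i → σ i = i) →
    ∀ ψ : ℕ →₀ ℤ, Q.coeff (ψ.mapDomain σ) = Q.coeff ψ
  monic : Q.coeff (expo N χ) = 1
  dom : ∀ ψ : ℕ →₀ ℤ, Q.coeff ψ ≠ 0 → (∀ i, N ≤ i → ψ i = 0) ∧
    (∀ T : Finset ℕ, T ⊆ range N → ∑ i ∈ T, ψ i ≤ ∑ i ∈ range T.card, χ i) ∧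
    ∑ i ∈ range N, ψ i = ∑ i ∈ range N, χ i
  eigen : ∃ E : ℂ, Cms k N Q (E • Q)

theorem IsLaurentJack.wj {k : ℂ} {N : ℕ} {χ : ℕ → ℤ} {Q : Lau} (H : IsLaurentJack k N χ Q) :
    WJ k N χ Q := by
  classical
  obtain ⟨P, hP, rfl⟩ := H
  set c := χ (N - 1) with hc
  set e := expo N (fun _ => c) with he
  have hco : ∀ ψ, (AddMonoidAlgebra.single e 1 * P : Lau).coeff ψ = P.coeff (ψ - e) := by
    intro ψ; rw [coeff_single_mul', one_mul]
  refine ⟨?_, ?_, ?_, ?_⟩
  · intro σ hσ ψ
    rw [hco, hco, ← hP.symm σ hσ (ψ - e)]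
    congr 1
    ext m
    rw [Finsupp.mapDomain_equiv_apply, Finsupp.sub_apply, Finsupp.sub_apply,
      Finsupp.mapDomain_equiv_apply]
    congr 1
    rw [he, expo_apply, expo_apply]
    have : m < N ↔ σ.symm m < N := by
      constructor
      · intro h
        by_contra h'
        push Not at h'
        have := hσ _ h'
        rw [σ.apply_symm_apply] at this
        omega
      · intro h
        by_contra h'
        push Not at h'
        have h2 := hσ _ h'
        have h3 : σ.symm m = m := by rw [σ.symm_apply_eq]; exact h2.symm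
        omega
    by_cases h : m < N
    · rw [if_pos h, if_pos (this.mp h)]
    · rw [if_neg h, if_neg (fun h' => h (this.mpr h'))]
  · rw [hco]
    have : expo N χ - e = expo N (fun i => χ i - c) := by
      ext m
      rw [Finsupp.sub_apply, he, expo_apply, expo_apply, expo_apply]
      split_ifs
      · rfl
      · rfl
    rw [this]
    exact hP.monic
  · intro ψ hψ
    rw [hco] at hψ
    obtain ⟨h1, h2, h3⟩ := hP.dom _ (Finsupp.mem_support_iff.mpr hψ)
    refine ⟨?_, ?_, ?_⟩
    · intro i hi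
      have := h1 i hi
      rw [Finsupp.sub_apply, he, expo_apply, if_neg (by omega), sub_zero] at this
      exact this
    · intro T hT
      have h4 := h2 T hT
      rw [Finset.sum_sub_distrib, Finset.sum_const, card_range] at h4
      have h5 : ∑ i ∈ T, (ψ - e) i = ∑ i ∈ T, ψ i - T.card • c := by
        rw [← Finset.sum_const, ← Finset.sum_sub_distrib]
        apply Finset.sum_congr rfl
        intro i hi
        have := mem_range.mp (hT hi)
        rw [Finsupp.sub_apply, he, expo_apply, if_pos this]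
      rw [h5] at h4
      linarith
    · have h5 : ∑ i ∈ range N, (ψ - e) i = ∑ i ∈ range N, ψ i - N • c := by
        have : N • c = ∑ _i ∈ range N, c := by rw [Finset.sum_const, card_range]
        rw [this, ← Finset.sum_sub_distrib]
        apply Finset.sum_congr rfl
        intro i hi
        rw [Finsupp.sub_apply, he, expo_apply, if_pos (mem_range.mp hi)]
      rw [h5, Finset.sum_sub_distrib, Finset.sum_const, card_range] at h3
      linarith
  · obtain ⟨E, g, hg, hE⟩ := hP.eigen
    set S : Lau := AddMonoidAlgebra.single e 1 with hS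
    have hei : ∀ i ∈ range N, ((e i : ℤ) : ℂ) = (c : ℂ) := by
      intro i hi
      rw [he, expo_apply, if_pos (mem_range.mp hi)]
    have hD : ∀ f : Lau, ∀ i ∈ range N, euler i (S * f) = (c : ℂ) • (S * f) + S * euler i f := by
      intro f i hi
      rw [hS, euler_single_mul, hei i hi]
    have hsum : ∑ i ∈ range N, euler i P =
        (((∑ i ∈ range N, (χ i - c) : ℤ)) : ℂ) • P := by
      apply lau_ext
      intro ψ
      rw [coeff_sum', coeff_smul']
      have : ∑ i ∈ range N, (euler i P).coeff ψ =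
          ((∑ i ∈ range N, ψ i : ℤ) : ℂ) * P.coeff ψ := by
        push_cast
        rw [Finset.sum_mul]
        rfl
      rw [this]
      by_cases h : P.coeff ψ = 0
      · rw [h, mul_zero, mul_zero]
      · rw [(hP.dom ψ (Finsupp.mem_support_iff.mpr h)).2.2]
    refine ⟨E + 2 * (c : ℂ) * ((∑ i ∈ range N, (χ i - c) : ℤ) : ℂ) + N * (c : ℂ) ^ 2,
      fun i j => S * g i j, ?_, ?_⟩
    · intro i j hij hj
      have hi' : i ∈ range N := mem_range.mpr (lt_trans hij hj)
      have hj' : j ∈ range N := mem_range.mpr hj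
      rw [hD P i hi', hD P j hj']
      have := hg i j hij hj
      linear_combination S * this
    · have h1 : ∑ i ∈ range N, euler i (euler i (S * P)) =
          (N : ℂ) • ((c : ℂ) ^ 2 • (S * P)) + (2 * (c : ℂ)) • (S * ∑ i ∈ range N, euler i P) +
            S * ∑ i ∈ range N, euler i (euler i P) := by
        have h2 : ∀ i ∈ range N, euler i (euler i (S * P)) =
            (c : ℂ) ^ 2 • (S * P) + (2 * (c : ℂ)) • (S * euler i P) +
              S * euler i (euler i P) := by
          intro i hi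
          rw [hD P i hi, euler_add, euler_smul, hD P i hi, hD _ i hi, smul_add, smul_smul]
          rw [two_mul, add_smul, pow_two]
          abel
        rw [Finset.sum_congr rfl h2, Finset.sum_add_distrib, Finset.sum_add_distrib,
          Finset.sum_const, card_range, ← Finset.smul_sum, ← Finset.mul_sum, ← Finset.mul_sum,
          ← Nat.cast_smul_eq_nsmul ℂ]
      have h3 : ∑ j ∈ range N, ∑ i ∈ range j, S * g i j =
          S * ∑ j ∈ range N, ∑ i ∈ range j, g i j := by
        rw [Finset.mul_sum]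
        apply Finset.sum_congr rfl
        intro j _
        rw [Finset.mul_sum]
      rw [h1, h3, hsum]
      have h4 : S * ∑ i ∈ range N, euler i (euler i P) =
          S * (E • P) + S * (k • ∑ j ∈ range N, ∑ i ∈ range j, g i j) := by
        rw [← hE]; ring
      rw [h4, mul_smul_comm, mul_smul_comm, mul_smul_comm, smul_smul, smul_smul, add_smul,
        add_smul]
      abel

/-- Exponents of a Jack Laurent polynomial have a sum of squares at most that of `χ`. -/
theorem WJ.sq_le {k : ℂ} {N : ℕ} {χ : ℕ → ℤ} {Q : Lau} (H : WJ k N χ Q) {ψ : ℕ →₀ ℤ}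
    (hψ : Q.coeff ψ ≠ 0) : sq N ψ ≤ ∑ i ∈ range N, χ i ^ 2 :=
  (dom_sq (H.dom ψ hψ).2.1 (H.dom ψ hψ).2.2).1

/-- If equality holds the coefficient is `1`. -/
theorem WJ.coeff_eq_one {k : ℂ} {N : ℕ} {χ : ℕ → ℤ} {Q : Lau} (H : WJ k N χ Q) {ψ : ℕ →₀ ℤ}
    (hψ : Q.coeff ψ ≠ 0) (h : sq N ψ = ∑ i ∈ range N, χ i ^ 2) : Q.coeff ψ = 1 := by
  classical
  obtain ⟨σ, hσ, hs⟩ := (dom_sq (H.dom ψ hψ).2.1 (H.dom ψ hψ).2.2).2 h
  have : ψ = (expo N χ).mapDomain σ := by
    ext m
    rw [Finsupp.mapDomain_equiv_apply, expo_apply]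
    split_ifs with h1
    · rw [← hs _ h1, σ.apply_symm_apply]
    · have h2 := hσ (σ.symm m) (by omega)
      rw [σ.apply_symm_apply] at h2
      have h3 : N ≤ m := by omega
      exact (H.dom ψ hψ).1 m h3
  rw [this, H.symm σ hσ, H.monic]

/-- The eigenvalue can be computed at every rearrangement of the leading exponent. -/
theorem WJ.eigenvalue {k : ℂ} {N : ℕ} {χ : ℕ → ℤ} {Q : Lau} (H : WJ k N χ Q) {ψ : ℕ →₀ ℤ}
    (σ : Equiv.Perm ℕ) (hσ : ∀ i, N ≤ i → σ i = i) (hψ : ∀ i, i < N → ψ (σ i) = χ i)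
    (hψ0 : ∀ i, N ≤ i → ψ i = 0) :
    Cms k N Q (((sq N ψ : ℂ) - k * (bb N ψ : ℂ)) • Q) := by
  classical
  obtain ⟨E, hE⟩ := H.eigen
  have hψe : ψ = (expo N χ).mapDomain σ := by
    ext m
    rw [Finsupp.mapDomain_equiv_apply, expo_apply]
    split_ifs with h1
    · rw [← hψ _ h1, σ.apply_symm_apply]
    · have h2 := hσ (σ.symm m) (by omega)
      rw [σ.apply_symm_apply] at h2
      exact hψ0 m (by omega)
  have h1 : Q.coeff ψ = 1 := by rw [hψe, H.symm σ hσ, H.monic]
  have hsq : sq N ψ = ∑ i ∈ range N, χ i ^ 2 := by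
    rw [sq, ← sum_range_perm σ hσ (fun i => ψ i ^ 2)]
    apply Finset.sum_congr rfl
    intro i hi
    rw [hψ i (mem_range.mp hi)]
  have h2 := hE.coeff ψ (by
    intro i j hi hj hij hle l hl
    by_contra hne
    have h3 := H.sq_le hne
    rw [sq_line hi hj hij, ← hsq] at h3
    nlinarith [mul_nonneg (show (0 : ℤ) ≤ 2 * l by linarith) (sub_nonneg.mpr hle)])
  rw [h1, mul_one, coeff_smul', h1, mul_one] at h2
  rw [← h2]; exact hE

end Q4.JL
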