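import Pool.Agent.Q4.JL.Basic

/-!
# The Calogero-Moser-Sutherland operator on the polynomial algebra in the power sums
-/

namespace Q4.JL

open Finset MvPolynomial

/-- An identity for power sums. -/
theorem pair_sum {R : Type*} [CommRing R] (u : ℕ → R) (m N : ℕ) :
    ∑ j ∈ range N, ∑ i ∈ range j,
      (u i ^ (m + 1) + u j ^ (m + 1) + 2 * ∑ l ∈ range m, u i ^ (l + 1) * u j ^ (m - l)) =
    ((N : R) - ((m + 1 : ℕ) : R)) * ∑ i ∈ range N, u i ^ (m + 1) +
      ∑ l ∈ range m, (∑ i ∈ range N, u i ^ (l + 1)) * ∑ i ∈ range N, u i ^ (m - l) := by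
  induction N with
  | zero =>
    rw [Finset.sum_range_zero, Finset.sum_range_zero, mul_zero, zero_add]
    symm
    apply Finset.sum_eq_zero
    intro l _
    rw [Finset.sum_range_zero, zero_mul]
  | succ N ih =>
    rw [Finset.sum_range_succ, ih]
    have h1 : ∑ i ∈ range N,
        (u i ^ (m + 1) + u N ^ (m + 1) + 2 * ∑ l ∈ range m, u i ^ (l + 1) * u N ^ (m - l)) =
        ∑ i ∈ range N, u i ^ (m + 1) + (N : R) * u N ^ (m + 1) +
          2 * ∑ l ∈ range m, (∑ i ∈ range N, u i ^ (l + 1)) * u N ^ (m - l) := by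
      rw [Finset.sum_add_distrib, Finset.sum_add_distrib, Finset.sum_const, card_range,
        nsmul_eq_mul, ← Finset.mul_sum, Finset.sum_comm]
      congr 2
      apply Finset.sum_congr rfl
      intro l _
      rw [Finset.sum_mul]
    have h2 : ∑ l ∈ range m, (∑ i ∈ range (N + 1), u i ^ (l + 1)) *
          ∑ i ∈ range (N + 1), u i ^ (m - l) =
        ∑ l ∈ range m, (∑ i ∈ range N, u i ^ (l + 1)) * ∑ i ∈ range N, u i ^ (m - l) +
        ∑ l ∈ range m, (∑ i ∈ range N, u i ^ (l + 1)) * u N ^ (m - l) +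
        ∑ l ∈ range m, u N ^ (l + 1) * (∑ i ∈ range N, u i ^ (m - l)) +
        (m : R) * u N ^ (m + 1) := by
      have h3 : (m : R) * u N ^ (m + 1) = ∑ l ∈ range m, u N ^ (l + 1) * u N ^ (m - l) := by
        rw [Finset.sum_congr rfl (g := fun _ => u N ^ (m + 1))]
        · rw [Finset.sum_const, card_range, nsmul_eq_mul]
        · intro l hl
          rw [mem_range] at hl
          rw [← pow_add]
          congr 1
          omega
      rw [h3, ← Finset.sum_add_distrib, ← Finset.sum_add_distrib, ← Finset.sum_add_distrib]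
      apply Finset.sum_congr rfl
      intro l _
      rw [Finset.sum_range_succ, Finset.sum_range_succ]; ring
    have h4 : ∑ l ∈ range m, u N ^ (l + 1) * (∑ i ∈ range N, u i ^ (m - l)) =
        ∑ l ∈ range m, (∑ i ∈ range N, u i ^ (l + 1)) * u N ^ (m - l) := by
      rw [← Finset.sum_range_reflect]
      apply Finset.sum_congr rfl
      intro l hl
      rw [mem_range] at hl
      rw [show m - 1 - l + 1 = m - l by omega, show m - (m - 1 - l) = l + 1 by omega, mul_comm]
    rw [h1, h2, h4, Finset.sum_range_succ]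
    push_cast
    ring

/-- The geometric sum identity behind the operator. -/
theorem geom_id {R : Type*} [CommRing R] (u v : R) (m : ℕ) :
    (u - v) * (u ^ (m + 1) + v ^ (m + 1) + 2 * ∑ l ∈ range m, u ^ (l + 1) * v ^ (m - l)) =
      (u + v) * (u ^ (m + 1) - v ^ (m + 1)) := by
  have key : ∀ m : ℕ, (u - v) * ∑ l ∈ range m, u ^ (l + 1) * v ^ (m - l) =
      u * v * (u ^ m - v ^ m) := by
    intro m
    induction m with
    | zero => simp
    | succ m ih =>
      rw [Finset.sum_range_succ]
      have : ∑ l ∈ range m, u ^ (l + 1) * v ^ (m + 1 - l) =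
          v * ∑ l ∈ range m, u ^ (l + 1) * v ^ (m - l) := by
        rw [Finset.mul_sum]
        apply Finset.sum_congr rfl
        intro l hl
        rw [mem_range] at hl
        rw [show m + 1 - l = (m - l) + 1 by omega, pow_succ]; ring
      rw [this, mul_add, mul_left_comm, ih, show m + 1 - m = 1 by omega]
      ring
  have h := key m
  have : (u - v) * (u ^ (m + 1) + v ^ (m + 1) + 2 * ∑ l ∈ range m, u ^ (l + 1) * v ^ (m - l)) =
    (u - v) * (u ^ (m + 1) + v ^ (m + 1)) +
      2 * ((u - v) * ∑ l ∈ range m, u ^ (l + 1) * v ^ (m - l)) := by ring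
  rw [this, h]; ring

theorem xpow_mul_xpow (i : ℕ) (a b : ℤ) : xpow i a * xpow i b = xpow i (a + b) := by
  rw [xpow, xpow, xpow, AddMonoidAlgebra.single_mul_single, mul_one, ← Finsupp.single_add]

theorem xpow_zero' (i : ℕ) : xpow i 0 = 1 := by
  rw [xpow, Finsupp.single_zero]; rfl

theorem xpow_pow' (i : ℕ) (a : ℤ) (m : ℕ) : xpow i a ^ m = xpow i (a * m) := by
  induction m with
  | zero => rw [pow_zero]; simp [xpow_zero']
  | succ m ih => rw [pow_succ, ih, xpow_mul_xpow]; congr 1; push_cast; ring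

/-- The symmetric kernel. -/
noncomputable def qq (i j : ℕ) (a : ℤ) : Lau :=
  (a.sign : ℂ) • (xpow i a.sign ^ (a.natAbs - 1 + 1) + xpow j a.sign ^ (a.natAbs - 1 + 1) +
    2 * ∑ l ∈ range (a.natAbs - 1), xpow i a.sign ^ (l + 1) * xpow j a.sign ^ (a.natAbs - 1 - l))

theorem xpow_sign_pow (i : ℕ) {a : ℤ} (ha : a ≠ 0) :
    xpow i a.sign ^ (a.natAbs - 1 + 1) = xpow i a := by
  have : 0 < a.natAbs := Int.natAbs_pos.mpr ha
  rw [xpow_pow', show a.natAbs - 1 + 1 = a.natAbs by omega, Int.sign_mul_natAbs]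

theorem qq_eq (i j : ℕ) {a : ℤ} (ha : a ≠ 0) :
    (xpow i 1 - xpow j 1) * qq i j a = (xpow i 1 + xpow j 1) * (xpow i a - xpow j a) := by
  have h := geom_id (xpow i a.sign) (xpow j a.sign) (a.natAbs - 1)
  rw [qq, mul_smul_comm]
  set S := xpow i a.sign ^ (a.natAbs - 1 + 1) + xpow j a.sign ^ (a.natAbs - 1 + 1) +
    2 * ∑ l ∈ range (a.natAbs - 1), xpow i a.sign ^ (l + 1) *
      xpow j a.sign ^ (a.natAbs - 1 - l) with hS
  rw [xpow_sign_pow i ha, xpow_sign_pow j ha] at h
  rcases lt_or_gt_of_ne ha with hneg | hpos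
  · have hs : a.sign = -1 := Int.sign_eq_neg_one_of_neg hneg
    rw [hs] at h ⊢
    have h1 : xpow i 1 - xpow j 1 = -(xpow i 1 * xpow j 1 * (xpow i (-1) - xpow j (-1))) := by
      have e1 : xpow i 1 * xpow i (-1) = 1 := by rw [xpow_mul_xpow]; simpa using xpow_zero' i
      have e2 : xpow j 1 * xpow j (-1) = 1 := by rw [xpow_mul_xpow]; simpa using xpow_zero' j
      linear_combination (xpow j 1) * e1 - (xpow i 1) * e2
    have h2 : xpow i 1 + xpow j 1 = xpow i 1 * xpow j 1 * (xpow i (-1) + xpow j (-1)) := by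
      have e1 : xpow i 1 * xpow i (-1) = 1 := by rw [xpow_mul_xpow]; simpa using xpow_zero' i
      have e2 : xpow j 1 * xpow j (-1) = 1 := by rw [xpow_mul_xpow]; simpa using xpow_zero' j
      linear_combination -(xpow j 1) * e1 - (xpow i 1) * e2
    rw [h1, h2]
    push_cast
    rw [neg_one_smul]
    linear_combination (xpow i 1 * xpow j 1) * h
  · have hs : a.sign = 1 := Int.sign_eq_one_of_pos hpos
    rw [hs] at h ⊢
    rw [Int.cast_one, one_smul]
    exact h

/-- The element `p a`, and `0` for `a = 0`. -/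
noncomputable def XX (a : ℤ) : MvPolynomial Idx ℂ := if h : a = 0 then 0 else X ⟨a, h⟩

theorem phi_XX (N : ℕ) {a : ℤ} (ha : a ≠ 0) : phi N (XX a) = powerSum N a := by
  rw [XX, dif_neg ha, phi, aeval_X]

theorem phi_X (N : ℕ) (a : Idx) : phi N (X a) = powerSum N a := by
  rw [phi, aeval_X]

theorem powerSum_zero (N : ℕ) : powerSum N 0 = (N : Lau) := by
  rw [powerSum, Finset.sum_congr rfl (fun i _ => xpow_zero' i), Finset.sum_const, card_range,
    nsmul_eq_mul, mul_one]

theorem euler_powerSum {N i : ℕ} (hi : i ∈ range N) (a : ℤ) :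
    euler i (powerSum N a) = (a : ℂ) • xpow i a := by
  rw [powerSum, euler_sum, Finset.sum_congr rfl (fun j _ => euler_xpow i j a),
    Finset.sum_ite_eq, if_pos hi]

theorem euler_algebraMap (i : ℕ) (c : ℂ) : euler i (algebraMap ℂ Lau c) = 0 := by
  rw [Algebra.algebraMap_eq_smul_one, euler_smul]
  have : (1 : Lau) = AddMonoidAlgebra.single 0 1 := rfl
  rw [this, euler_single]; simp

theorem pderiv_supported {A : Set Idx} (a : Idx) {F : MvPolynomial Idx ℂ}
    (hF : F ∈ supported ℂ A) : pderiv a F ∈ supported ℂ A := by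
  rw [supported] at hF ⊢
  induction hF using Algebra.adjoin_induction with
  | mem x hx =>
    obtain ⟨b, _, rfl⟩ := hx
    rw [pderiv_X]
    by_cases h : a = b
    · subst h; rw [Pi.single_eq_same]; exact one_mem _
    · rw [Pi.single_eq_of_ne (Ne.symm h)]; exact zero_mem _
  | algebraMap r =>
    rw [Derivation.map_algebraMap]; exact zero_mem _
  | add x y _ _ hx hy => rw [map_add]; exact add_mem hx hy
  | mul x y hx' hy' hx hy =>
    rw [pderiv_mul]; exact add_mem (mul_mem hx hy') (mul_mem hx' hy)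

/-- The chain rule. -/
theorem chain {N i : ℕ} (hi : i ∈ range N) (A : Finset Idx) {F : MvPolynomial Idx ℂ}
    (hF : F ∈ supported ℂ (A : Set Idx)) :
    euler i (phi N F) =
      ∑ a ∈ A, ((a : ℤ) : ℂ) • (xpow i a * phi N (pderiv a F)) := by
  rw [supported] at hF
  induction hF using Algebra.adjoin_induction with
  | mem x hx =>
    obtain ⟨b, hb, rfl⟩ := hx
    rw [phi_X, euler_powerSum hi, Finset.sum_eq_single b]
    · rw [pderiv_X, Pi.single_eq_same, map_one, mul_one]
    · intro c _ hc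
      rw [pderiv_X, Pi.single_eq_of_ne (Ne.symm hc), map_zero, mul_zero, smul_zero]
    · intro h; exact absurd hb h
  | algebraMap r =>
    rw [AlgHom.commutes, euler_algebraMap]
    symm
    apply Finset.sum_eq_zero
    intro a _
    rw [Derivation.map_algebraMap, map_zero, mul_zero, smul_zero]
  | add x y _ _ hx hy =>
    rw [map_add, euler_add, hx, hy, ← Finset.sum_add_distrib]
    apply Finset.sum_congr rfl
    intro a _
    rw [map_add, map_add, mul_add, smul_add]
  | mul x y _ _ hx hy =>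
    rw [map_mul, euler_mul, hx, hy, Finset.sum_mul, Finset.mul_sum, ← Finset.sum_add_distrib]
    apply Finset.sum_congr rfl
    intro a _
    rw [pderiv_mul, map_add, map_mul, map_mul, mul_add, smul_add, smul_mul_assoc, mul_smul_comm]
    congr 2 <;> ring

end Q4.JL
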