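import Pool.Agent.Q4.JL.Prep

/-!
# The limit at infinite `p₀`
-/

namespace Q4.JL

open Finset Filter Topology Bornology MvPolynomial

/-- The limits of the coefficients of `L F_N`. -/
theorem lim_spec {F : MvPolynomial Idx (RatFunc ℂ)} {d : ℤ} {G : MvPolynomial Idx ℂ}
    (hG : G.support ⊆ F.support)
    (hlim : ∀ s ∈ F.support, Tendsto
      (fun N : ℕ => (N : ℂ) ^ (-d) * (F.coeff s).eval (RingHom.id ℂ) (N : ℂ))
        atTop (𝓝 (G.coeff s)))
    (L : MvPolynomial Idx ℂ →ₗ[ℂ] MvPolynomial Idx ℂ) (t : Idx →₀ ℕ) :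
    Tendsto (fun N : ℕ => (N : ℂ) ^ (-d) * (L (specialise F N)).coeff t) atTop
      (𝓝 ((L G).coeff t)) :=
  lim_op hG hlim L t

theorem tendsto_inv_nat : Tendsto (fun N : ℕ => ((N : ℂ))⁻¹) atTop (𝓝 0) :=
  tendsto_inv₀_cobounded.comp tendsto_natCast_atTop_cobounded

/-- If `N a_N + b_N = 0` and `N^{-d} a_N → a`, `N^{-d} b_N → b`, then `a = 0`. -/
theorem lim_zero {a b : ℕ → ℂ} {d : ℤ} {x y : ℂ}
    (h : ∀ᶠ N : ℕ in atTop, (N : ℂ) * a N + b N = 0)
    (ha : Tendsto (fun N : ℕ => (N : ℂ) ^ (-d) * a N) atTop (𝓝 x))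
    (hb : Tendsto (fun N : ℕ => (N : ℂ) ^ (-d) * b N) atTop (𝓝 y)) : x = 0 := by
  have h1 : Tendsto (fun N : ℕ => -(((N : ℂ))⁻¹ * ((N : ℂ) ^ (-d) * b N))) atTop (𝓝 0) := by
    have := (tendsto_inv_nat.mul hb).neg
    rwa [zero_mul, neg_zero] at this
  have h2 : Tendsto (fun N : ℕ => (N : ℂ) ^ (-d) * a N) atTop (𝓝 0) := by
    refine h1.congr' ?_
    filter_upwards [h, eventually_ge_atTop 1] with N hN hN1
    have hN0 : (N : ℂ) ≠ 0 := by
      have : N ≠ 0 := by omega
      exact_mod_cast this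
    have : a N = -((N : ℂ)⁻¹ * b N) := by
      field_simp
      linear_combination hN
    rw [this]; ring
  exact tendsto_nhds_unique ha h2

/-- The weights of `F` are at most the total size of the bipartition. -/
theorem weight_le {k : ℂ} (hk : k ≠ 0) {lam mu : YoungDiagram}
    {F : MvPolynomial Idx (RatFunc ℂ)} (hF : IsJackLaurent k lam mu F) :
    ∀ s ∈ F.support, wt s ≤ gr (psi0 lam mu) := by
  classical
  set n := gr (psi0 lam mu) with hn
  by_contra hc
  push Not at hc
  obtain ⟨s₁, hs₁, hlt⟩ := hc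
  obtain ⟨s₂, hs₂, hmax⟩ := Finset.exists_max_image F.support (fun s => wt s) ⟨s₁, hs₁⟩
  set w := wt s₂ with hw
  have hnw : n < w := lt_of_lt_of_le hlt (hmax s₁ hs₁)
  set S := F.support.filter (fun s => wt s = w) with hS
  have hSne : S.Nonempty := ⟨s₂, by rw [hS, Finset.mem_filter]; exact ⟨hs₂, rfl⟩⟩
  obtain ⟨d, G, hG0, hGS, -, hlim⟩ := leading F hSne (fun s hs => by
    have := (Finset.mem_filter.mp hs).1
    rwa [mem_support_iff] at this)
  obtain ⟨s, hs⟩ := MvPolynomial.ne_zero_iff.mp hG0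
  have hsS : s ∈ S := hGS (mem_support_iff.mpr hs)
  have hsw : wt s = w := (Finset.mem_filter.mp hsS).2
  have hsF : s ∈ F.support := (Finset.mem_filter.mp hsS).1
  obtain ⟨E, hE⟩ := eigen_eq' hF (W := w) (fun s hs => hmax s hs)
  -- the part of weight `w`
  let top : ℕ → MvPolynomial Idx ℂ := fun N =>
    ∑ s ∈ S, monomial s ((F.coeff s).eval (RingHom.id ℂ) (N : ℂ))
  have hlow : ∀ N : ℕ, Gr ((w : ℤ) - 1) (specialise F N - top N) := by
    intro N u hu
    have h1 : specialise F N - top N = ∑ s ∈ F.support.filter (fun s => ¬ wt s = w),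
        monomial s ((F.coeff s).eval (RingHom.id ℂ) (N : ℂ)) := by
      rw [sub_eq_iff_eq_add, specialise, add_comm]
      exact (Finset.sum_filter_add_sum_filter_not _ _ _).symm
    rw [h1, coeff_sum] at hu
    obtain ⟨v, hv, hvu⟩ := Finset.exists_ne_zero_of_sum_ne_zero hu
    rw [coeff_monomial] at hvu
    split_ifs at hvu with he
    · rw [Finset.mem_filter] at hv
      have h2 := hmax v hv.1
      have h3 : wt v ≠ w := hv.2
      have h4 : wt v < w := lt_of_le_of_ne h2 h3
      rw [he] at h4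
      omega
    · exact absurd rfl hvu
  have hgr : ∀ N : ℕ, Gr (w : ℤ) (specialise F N) := by
    intro N u hu
    rw [specialise_coeff] at hu
    split_ifs at hu with hc
    · exact_mod_cast hmax u hc
    · exact absurd rfl hu
  have key : ∀ᶠ N : ℕ in atTop, (N : ℂ) * ((-k * ((w : ℂ) - (n : ℂ))) *
      (F.coeff s).eval (RingHom.id ℂ) (N : ℂ)) + (LB k E F.vars (top N)).coeff s = 0 := by
    filter_upwards [eventually_ge_atTop (max (len lam + len mu) (max 1 w))] with N hN
    have hNa : len lam + len mu ≤ N := le_trans (le_max_left _ _) hN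
    have hNb : 1 ≤ N := le_trans (le_trans (le_max_left _ _) (le_max_right _ _)) hN
    have hNc : w ≤ N := le_trans (le_trans (le_max_right _ _) (le_max_right _ _)) hN
    have h1 := congrArg (fun P : MvPolynomial Idx ℂ => P.coeff s) (hE N hNa hNb hNc).2
    simp only [coeff_add, coeff_smul, coeff_zero, smul_eq_mul, LA_apply] at h1
    rw [L1_coeff (hgr N) k F.vars (specialise_supported F N) (s := s) (by rw [hsw]), hsw] at h1
    have h2 : (LB k E F.vars (specialise F N)).coeff s = (LB k E F.vars (top N)).coeff s := by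
      have h3 : (LB k E F.vars (specialise F N - top N)).coeff s = 0 := by
        by_contra h4
        have h5 : Gr ((w : ℤ) - 1) (LB k E F.vars (specialise F N - top N)) := by
          rw [LB_apply]
          exact ((hlow N).L0 k _).sub ((hlow N).smul E)
        have h6 := h5 s h4
        rw [hsw] at h6
        omega
      rw [map_sub, coeff_sub] at h3
      exact sub_eq_zero.mp h3
    rw [h2, specialise_coeff, if_pos hsF] at h1
    rw [← h1]
    ring
  have ha : Tendsto (fun N : ℕ => (N : ℂ) ^ (-d) * ((-k * ((w : ℂ) - (n : ℂ))) *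
      (F.coeff s).eval (RingHom.id ℂ) (N : ℂ))) atTop
      (𝓝 ((-k * ((w : ℂ) - (n : ℂ))) * G.coeff s)) := by
    refine ((hlim s hsS).const_mul (-k * ((w : ℂ) - (n : ℂ)))).congr fun N => ?_
    ring
  have hb := lim_op hGS hlim (LB k E F.vars) s
  have hz := lim_zero key ha hb
  rcases mul_eq_zero.mp hz with h | h
  · rcases mul_eq_zero.mp h with h | h
    · exact hk (neg_eq_zero.mp h)
    · have : (w : ℂ) = (n : ℂ) := sub_eq_zero.mp h
      have : w = n := by exact_mod_cast this
      omega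
  · exact hs h

/-- The main theorem: no coefficient of `F` has a pole at infinity. -/
theorem degree_le {k : ℂ} (hk : ∀ q : ℚ, k ≠ (q : ℂ)) {lam mu : YoungDiagram}
    {F : MvPolynomial Idx (RatFunc ℂ)} (hF : IsJackLaurent k lam mu F) :
    ∀ s, (F.coeff s).intDegree ≤ 0 := by
  classical
  have hk0 : k ≠ 0 := by
    have := hk 0
    simpa using this
  set n := gr (psi0 lam mu) with hn
  have hwt := weight_le hk0 hF
  by_contra hc
  push Not at hc
  obtain ⟨s₁, hs₁⟩ := hc
  have hs₁F : s₁ ∈ F.support := by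
    rw [mem_support_iff]
    intro h0
    rw [h0, RatFunc.intDegree_zero] at hs₁
    exact lt_irrefl _ hs₁
  obtain ⟨d, G, hG0, hGS, hd, hlim⟩ := leading F ⟨s₁, hs₁F⟩ (fun s hs => mem_support_iff.mp hs)
  have hdpos : 0 < d := lt_of_lt_of_le hs₁ (hd s₁ hs₁F)
  obtain ⟨E, hE⟩ := eigen_eq' hF hwt
  set N₀ := len lam + len mu with hN₀
  have hgr : ∀ N : ℕ, Gr (n : ℤ) (specialise F N) := by
    intro N u hu
    rw [specialise_coeff] at hu
    split_ifs at hu with hc
    · exact_mod_cast hwt u hc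
    · exact absurd rfl hu
  have hGgr : Gr (n : ℤ) G := by
    intro u hu
    exact_mod_cast hwt u (hGS (mem_support_iff.mpr hu))
  have hGsup : G ∈ supported ℂ (F.vars : Set Idx) := by
    rw [mem_supported]
    intro a ha
    rw [Finset.mem_coe, mem_vars_iff_mem_support] at ha ⊢
    obtain ⟨u, hu, hau⟩ := ha
    exact ⟨u, hGS hu, hau⟩
  have hlarge : ∀ᶠ N : ℕ in atTop, N₀ ≤ N ∧ 1 ≤ N ∧ n ≤ N := by
    filter_upwards [eventually_ge_atTop (max N₀ (max 1 n))] with N hN
    exact ⟨le_trans (le_max_left _ _) hN,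
      le_trans (le_trans (le_max_left _ _) (le_max_right _ _)) hN,
      le_trans (le_trans (le_max_right _ _) (le_max_right _ _)) hN⟩
  -- the leading part is an eigenvector of `L1`
  have hA : LA k (k * (n : ℂ)) F.vars G = 0 := by
    apply MvPolynomial.ext
    intro t
    rw [coeff_zero]
    refine lim_zero (b := fun N => (LB k E F.vars (specialise F N)).coeff t) ?_
      (lim_spec hGS hlim _ t) (lim_spec hGS hlim (LB k E F.vars) t)
    filter_upwards [hlarge] with N hN
    have h1 := congrArg (fun P : MvPolynomial Idx ℂ => P.coeff t) (hE N hN.1 hN.2.1 hN.2.2).2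
    simpa only [coeff_add, coeff_smul, coeff_zero, smul_eq_mul] using h1
  -- the top weight of the leading part is `n`
  obtain ⟨w, hGw, ⟨s₂, hs₂, hs₂w⟩, χ, hχ, hχ0, hχN⟩ := exists_top hG0
  have hwn : w = n := by
    have h1 := congrArg (fun P : MvPolynomial Idx ℂ => P.coeff s₂) hA
    simp only [LA_apply, coeff_add, coeff_smul, coeff_zero, smul_eq_mul] at h1
    rw [L1_coeff hGw k F.vars hGsup (s := s₂) (by rw [hs₂w]), hs₂w] at h1
    have h2 : k * ((n : ℂ) - (w : ℂ)) * G.coeff s₂ = 0 := by rw [← h1]; ring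
    rcases mul_eq_zero.mp h2 with h | h
    · rcases mul_eq_zero.mp h with h | h
      · exact absurd h hk0
      · have : (n : ℂ) = (w : ℂ) := sub_eq_zero.mp h
        exact_mod_cast this.symm
    · exact absurd h hs₂
  -- the top part of the leading part
  have hB : ∀ t, wt t = n → (LB k E F.vars G).coeff t = 0 := by
    intro t ht
    have h1 := lim_spec hGS hlim (LB k E F.vars) t
    have h2 : Tendsto (fun N : ℕ => (N : ℂ) ^ (-d) *
        (LB k E F.vars (specialise F N)).coeff t) atTop (𝓝 0) := by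
      refine tendsto_const_nhds.congr' ?_
      filter_upwards [hlarge] with N hN
      have h3 := congrArg (fun P : MvPolynomial Idx ℂ => P.coeff t)
        (hE N hN.1 hN.2.1 hN.2.2).2
      simp only [coeff_add, coeff_smul, coeff_zero, smul_eq_mul, LA_apply] at h3
      rw [L1_coeff (hgr N) k F.vars (specialise_supported F N) (s := t) (by rw [ht]), ht] at h3
      have h4 : (LB k E F.vars (specialise F N)).coeff t = 0 := by
        rw [← h3]; ring
      rw [h4, mul_zero]
    exact tendsto_nhds_unique h1 h2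
  have hBgr : ∀ t, (LB k E F.vars G).coeff t ≠ 0 → wt t < n := by
    intro t ht
    have h1 : Gr (n : ℤ) (LB k E F.vars G) := by
      rw [LB_apply]
      exact (hGgr.L0 k _).sub (hGgr.smul E)
    have h2 := h1 t ht
    have h3 : wt t ≠ n := fun h => ht (hB t h)
    omega
  -- a large number of variables
  obtain ⟨M, hM⟩ := hlarge.exists
  set f := phi M G with hf
  set T := f.coeff.support.filter (fun ψ => gr ψ = n) with hT
  have hTne : T.Nonempty := by
    refine ⟨χ, ?_⟩
    rw [hT, Finset.mem_filter, Finsupp.mem_support_iff]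
    exact ⟨hχN M (by rw [hwn]; exact hM.2.2), by rw [hχ, hwn]⟩
  obtain ⟨ψ, hψT, hψmax⟩ := Finset.exists_max_image T (fun ψ => sq M ψ) hTne
  rw [hT, Finset.mem_filter, Finsupp.mem_support_iff] at hψT
  obtain ⟨hψf, hψn⟩ := hψT
  have hψ0 : ∀ j, M ≤ j → ψ j = 0 := phi_coeff_supp hψf
  have hloc : ∀ i j, i < M → j < M → i ≠ j → ψ j ≤ ψ i → ∀ l : ℤ, 1 ≤ l →
      f.coeff (line ψ i j l) = 0 := by
    intro i j hi hj hij hle l hl
    by_contra hne
    have h1 : gr ψ ≤ gr (line ψ i j l) := gr_line hij hle (by omega)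
    rcases Nat.lt_or_ge n (gr (line ψ i j l)) with h2 | h2
    · apply hne
      apply phi_coeff_zero
      intro s hs
      have := hGgr s hs
      have : wt s ≤ n := by exact_mod_cast this
      omega
    · have h3 : gr (line ψ i j l) = n := by omega
      have h4 := hψmax (line ψ i j l) (by
        rw [hT, Finset.mem_filter, Finsupp.mem_support_iff]
        exact ⟨hne, h3⟩)
      have h4' : sq M (line ψ i j l) ≤ sq M ψ := h4
      rw [sq_line hi hj hij] at h4'
      nlinarith [mul_nonneg (show (0 : ℤ) ≤ l by omega) (sub_nonneg.mpr hle)]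
  have hcms := (intertwine k M F.vars hGsup).coeff ψ hloc
  have hsqbb : (sq M ψ : ℂ) - k * (bb M ψ : ℂ) =
      (sq M (psi0 lam mu) : ℂ) - k * (bb M (psi0 lam mu) : ℂ) := by
    have h1 : (M : ℂ) • L1 k F.vars G + L0 k F.vars G =
        (E - k * (n : ℂ) * M) • G + LB k E F.vars G := by
      rw [LA_apply] at hA
      have h2 : L1 k F.vars G = -((k * (n : ℂ)) • G) := eq_neg_of_add_eq_zero_left hA
      rw [h2, LB_apply, sub_smul, smul_neg, smul_smul, mul_comm (M : ℂ)]
      abel
    rw [h1, map_add, map_smul, coeff_add', coeff_smul', phi_coeff_zero (F := LB k E F.vars G)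
      (fun s hs => by rw [hψn]; exact hBgr s hs), add_zero] at hcms
    rw [(hE M hM.1 hM.2.1 hM.2.2).1]
    exact (mul_right_cancel₀ hψf hcms).symm
  have hbb : bb M ψ = bb M (psi0 lam mu) := by
    by_contra hne
    have h1 : ((bb M ψ - bb M (psi0 lam mu) : ℤ) : ℂ) ≠ 0 := by
      have : bb M ψ - bb M (psi0 lam mu) ≠ 0 := sub_ne_zero.mpr hne
      exact_mod_cast this
    apply hk (((sq M ψ - sq M (psi0 lam mu) : ℤ) : ℚ) / ((bb M ψ - bb M (psi0 lam mu) : ℤ) : ℚ))
    push_cast at h1 ⊢
    rw [eq_div_iff h1]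
    linear_combination -hsqbb
  have hsq : sq M ψ = sq M (psi0 lam mu) := by
    rw [hbb] at hsqbb
    have : (sq M ψ : ℂ) = (sq M (psi0 lam mu) : ℂ) := by linear_combination hsqbb
    exact_mod_cast this
  -- the coefficient at `ψ`
  have hlimψ : Tendsto (fun N : ℕ => (N : ℂ) ^ (-d) * (phi N (specialise F N)).coeff ψ) atTop
      (𝓝 (f.coeff ψ)) := by
    have h1 : f.coeff ψ = ∑ s ∈ F.support, G.coeff s * (cnt M (lst s) ψ : ℂ) :=
      phi_coeff M G hGS ψ
    rw [h1]
    have h2 : Tendsto (fun N : ℕ => ∑ s ∈ F.support,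
        ((N : ℂ) ^ (-d) * (F.coeff s).eval (RingHom.id ℂ) (N : ℂ)) * (cnt M (lst s) ψ : ℂ)) atTop
        (𝓝 (∑ s ∈ F.support, G.coeff s * (cnt M (lst s) ψ : ℂ))) :=
      tendsto_finsetSum _ fun s hs => (hlim s hs).mul_const _
    refine h2.congr' ?_
    filter_upwards [eventually_ge_atTop M] with N hN
    have h3 : (specialise F N).support ⊆ F.support := by
      intro s hs
      rw [mem_support_iff, specialise_coeff] at hs
      by_contra hc
      rw [if_neg hc] at hs
      exact hs rfl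
    rw [phi_coeff N (specialise F N) h3 ψ, Finset.mul_sum]
    apply Finset.sum_congr rfl
    intro s hs
    rw [specialise_coeff, if_pos hs, cnt_stable hN (lst_ne s) hψ0 (by
      rw [lw_lst, hψn]; exact hwt s hs)]
    ring
  have hone : Tendsto (fun N : ℕ => (N : ℂ) ^ (-d)) atTop (𝓝 (f.coeff ψ)) := by
    refine hlimψ.congr' ?_
    have hev := hlimψ.eventually_ne hψf
    filter_upwards [hev, eventually_ge_atTop M, hlarge] with N hN hMN hN2
    have h1 : (phi N (specialise F N)).coeff ψ ≠ 0 := fun h => hN (by rw [h, mul_zero])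
    have h2 := ((hF N hN2.2.1).2.1 hN2.1).wj
    have h3 : sq N ψ = ∑ i ∈ range N, chi N lam mu i ^ 2 := by
      rw [sq_psi0 lam mu hN2.1, sq_of_supp hMN hψ0, hsq,
        sq_of_supp hM.1 (fun i hi => psi0_eq_zero lam mu hi),
        sq_of_supp hN2.1 (fun i hi => psi0_eq_zero lam mu hi)]
    rw [h2.coeff_eq_one h1 h3, mul_one]
  have hzero : Tendsto (fun N : ℕ => (N : ℂ) ^ (-d)) atTop (𝓝 0) := by
    obtain ⟨e, he⟩ := Int.eq_ofNat_of_zero_le hdpos.le
    have he0 : e ≠ 0 := by rintro rfl; rw [he] at hdpos; simp at hdpos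
    have h1 := tendsto_inv_nat.pow e
    rw [zero_pow he0] at h1
    refine h1.congr fun N => ?_
    rw [he, inv_pow, zpow_neg]
    simp
  exact hψf (tendsto_nhds_unique hone hzero)

theorem main {k : ℂ} (hk : ∀ q : ℚ, k ≠ (q : ℂ)) {lam mu : YoungDiagram}
    {F : MvPolynomial Idx (RatFunc ℂ)} (hF : IsJackLaurent k lam mu F) (s : Idx →₀ ℕ) :
    ∃ L : ℂ, Tendsto (fun t : ℂ => (F.coeff s).eval (RingHom.id ℂ) t) (cobounded ℂ) (𝓝 L) :=
  rat_bounded (degree_le hk hF s)

end Q4.JL
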