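import Pool.Agent.Q4.JL.Lam

/-!
# The operators on the polynomial algebra and the intertwining relation
-/

namespace Q4.JL

open Finset MvPolynomial

/-- The part of the operator which is multiplied by `N`. -/
noncomputable def L1 (k : ℂ) (A : Finset Idx) :
    MvPolynomial Idx ℂ →ₗ[ℂ] MvPolynomial Idx ℂ where
  toFun F := -(k • ∑ a ∈ A, (((a : ℤ).natAbs : ℕ) : ℂ) • (X a * pderiv a F)) +
    ∑ a ∈ A, ∑ b ∈ A, (if (a : ℤ) + b = 0 then ((a : ℤ) : ℂ) * ((b : ℤ) : ℂ) else 0) •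
      pderiv b (pderiv a F)
  map_add' F G := by
    simp only [map_add, mul_add, smul_add, Finset.sum_add_distrib]
    abel
  map_smul' c F := by
    have e1 : ∀ a : Idx, pderiv a (c • F) = c • pderiv a F := fun a => Derivation.map_smul _ c F
    have e2 : ∀ b a : Idx, pderiv b (c • pderiv a F) = c • pderiv b (pderiv a F) :=
      fun b a => Derivation.map_smul _ c _
    simp only [e1, e2, RingHom.id_apply, mul_smul_comm, smul_add, smul_neg, Finset.smul_sum,
      smul_comm c]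

/-- The other part of the operator. -/
noncomputable def L0 (k : ℂ) (A : Finset Idx) :
    MvPolynomial Idx ℂ →ₗ[ℂ] MvPolynomial Idx ℂ where
  toFun F := ∑ a ∈ A, (((a : ℤ) : ℂ) * ((a : ℤ) : ℂ)) • (X a * pderiv a F) +
    ∑ a ∈ A, ∑ b ∈ A, (((a : ℤ) : ℂ) * ((b : ℤ) : ℂ)) •
      (XX ((a : ℤ) + b) * pderiv b (pderiv a F)) -
    k • ∑ a ∈ A, (((a : ℤ).natAbs : ℕ) : ℂ) •
      ((-((((a : ℤ).natAbs : ℕ) : ℂ) • X a) +
        ∑ l ∈ range ((a : ℤ).natAbs - 1), XX ((a : ℤ).sign * ((l + 1 : ℕ) : ℤ)) *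
          XX ((a : ℤ).sign * (((a : ℤ).natAbs - 1 - l : ℕ) : ℤ))) * pderiv a F)
  map_add' F G := by
    simp only [map_add, mul_add, smul_add, Finset.sum_add_distrib]
    abel
  map_smul' c F := by
    have e1 : ∀ a : Idx, pderiv a (c • F) = c • pderiv a F := fun a => Derivation.map_smul _ c F
    have e2 : ∀ b a : Idx, pderiv b (c • pderiv a F) = c • pderiv b (pderiv a F) :=
      fun b a => Derivation.map_smul _ c _
    simp only [e1, e2, RingHom.id_apply, mul_smul_comm, smul_add, smul_sub, Finset.smul_sum,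
      smul_comm c]

theorem sum_euler_euler {N : ℕ} (A : Finset Idx) {F : MvPolynomial Idx ℂ}
    (hF : F ∈ supported ℂ (A : Set Idx)) :
    ∑ i ∈ range N, euler i (euler i (phi N F)) =
      ∑ a ∈ A, (((a : ℤ) : ℂ) * ((a : ℤ) : ℂ)) • (powerSum N a * phi N (pderiv a F)) +
      ∑ a ∈ A, ∑ b ∈ A, (((a : ℤ) : ℂ) * ((b : ℤ) : ℂ)) •
        (powerSum N ((a : ℤ) + b) * phi N (pderiv b (pderiv a F))) := by
  have h1 : ∀ i ∈ range N, euler i (euler i (phi N F)) =
      ∑ a ∈ A, (((a : ℤ) : ℂ) * ((a : ℤ) : ℂ)) • (xpow i a * phi N (pderiv a F)) +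
      ∑ a ∈ A, ∑ b ∈ A, (((a : ℤ) : ℂ) * ((b : ℤ) : ℂ)) •
        (xpow i ((a : ℤ) + b) * phi N (pderiv b (pderiv a F))) := by
    intro i hi
    rw [chain hi A hF, euler_sum, ← Finset.sum_add_distrib]
    apply Finset.sum_congr rfl
    intro a _
    rw [euler_smul, euler_mul, euler_xpow, if_pos rfl, chain hi A (pderiv_supported a hF),
      Finset.mul_sum, smul_add, smul_mul_assoc, smul_smul, Finset.smul_sum]
    congr 1
    apply Finset.sum_congr rfl
    intro b _
    rw [mul_smul_comm, smul_smul, ← mul_assoc, xpow_mul_xpow]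
  rw [Finset.sum_congr rfl h1, Finset.sum_add_distrib]
  congr 1
  · rw [Finset.sum_comm]
    apply Finset.sum_congr rfl
    intro a _
    rw [powerSum, Finset.sum_mul, Finset.smul_sum]
  · rw [Finset.sum_comm]
    apply Finset.sum_congr rfl
    intro a _
    rw [Finset.sum_comm]
    apply Finset.sum_congr rfl
    intro b _
    rw [powerSum, Finset.sum_mul, Finset.smul_sum]

theorem sum_pow_xpow (N : ℕ) (s : ℤ) (m : ℕ) :
    ∑ i ∈ range N, xpow i s ^ m = powerSum N (s * m) := by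
  rw [powerSum]
  apply Finset.sum_congr rfl
  intro i _
  rw [xpow_pow']

theorem sum_qq {N : ℕ} {a : ℤ} (ha : a ≠ 0) :
    ∑ j ∈ range N, ∑ i ∈ range j, qq i j a =
      (a.sign : ℂ) • (((N : ℂ) - (a.natAbs : ℂ)) • powerSum N a +
        ∑ l ∈ range (a.natAbs - 1), powerSum N (a.sign * ((l + 1 : ℕ) : ℤ)) *
          powerSum N (a.sign * ((a.natAbs - 1 - l : ℕ) : ℤ))) := by
  have hp : 0 < a.natAbs := Int.natAbs_pos.mpr ha
  have h := pair_sum (fun i => xpow i a.sign) (a.natAbs - 1) N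
  have h1 : ∑ j ∈ range N, ∑ i ∈ range j, qq i j a = (a.sign : ℂ) •
      ∑ j ∈ range N, ∑ i ∈ range j,
      (xpow i a.sign ^ (a.natAbs - 1 + 1) + xpow j a.sign ^ (a.natAbs - 1 + 1) +
        2 * ∑ l ∈ range (a.natAbs - 1), xpow i a.sign ^ (l + 1) *
          xpow j a.sign ^ (a.natAbs - 1 - l)) := by
    rw [Finset.smul_sum]
    apply Finset.sum_congr rfl
    intro j _
    rw [Finset.smul_sum]
    rfl
  rw [h1, h]
  refine congrArg₂ (· • ·) rfl (congrArg₂ (· + ·) ?_ ?_)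
  · rw [sum_pow_xpow, show a.natAbs - 1 + 1 = a.natAbs by omega, Int.sign_mul_natAbs]
    rw [Algebra.smul_def, map_sub, map_natCast, map_natCast]
  · apply Finset.sum_congr rfl
    intro l _
    rw [sum_pow_xpow, sum_pow_xpow]

theorem powerSum_split (N : ℕ) (a : ℤ) :
    powerSum N a = phi N (XX a) + if a = 0 then algebraMap ℂ Lau (N : ℂ) else 0 := by
  by_cases h : a = 0
  · subst h
    rw [if_pos rfl, powerSum_zero, XX, dif_pos rfl, map_zero, zero_add, map_natCast]
  · rw [if_neg h, add_zero, phi_XX N h]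

theorem sign_mul_pos_ne {a : ℤ} (ha : a ≠ 0) {m : ℕ} (hm : 0 < m) : a.sign * (m : ℤ) ≠ 0 := by
  have : a.sign ≠ 0 := by rwa [Ne, Int.sign_eq_zero_iff_zero]
  exact mul_ne_zero this (by exact_mod_cast hm.ne')

/-- The intertwining relation. -/
theorem intertwine (k : ℂ) (N : ℕ) (A : Finset Idx) {F : MvPolynomial Idx ℂ}
    (hF : F ∈ supported ℂ (A : Set Idx)) :
    Cms k N (phi N F) (phi N ((N : ℂ) • L1 k A F + L0 k A F)) := by
  refine ⟨fun i j => ∑ a ∈ A, ((a : ℤ) : ℂ) • (qq i j a * phi N (pderiv a F)), ?_, ?_⟩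
  · intro i j hij hj
    have hi' : i ∈ range N := mem_range.mpr (lt_trans hij hj)
    have hj' : j ∈ range N := mem_range.mpr hj
    rw [chain hi' A hF, chain hj' A hF, ← Finset.sum_sub_distrib, Finset.mul_sum,
      Finset.mul_sum]
    apply Finset.sum_congr rfl
    intro a _
    rw [← smul_sub, mul_smul_comm, mul_smul_comm, ← sub_mul, ← mul_assoc, qq_eq i j a.2,
      mul_assoc]
  · have hg : ∑ j ∈ range N, ∑ i ∈ range j,
        ∑ a ∈ A, ((a : ℤ) : ℂ) • (qq i j a * phi N (pderiv a F)) =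
        ∑ a ∈ A, (((a : ℤ).natAbs : ℕ) : ℂ) •
          ((((N : ℂ) - (((a : ℤ).natAbs : ℕ) : ℂ)) • powerSum N a +
            ∑ l ∈ range ((a : ℤ).natAbs - 1), powerSum N ((a : ℤ).sign * ((l + 1 : ℕ) : ℤ)) *
              powerSum N ((a : ℤ).sign * (((a : ℤ).natAbs - 1 - l : ℕ) : ℤ))) *
            phi N (pderiv a F)) := by
      have : ∀ j ∈ range N, ∑ i ∈ range j,
          ∑ a ∈ A, ((a : ℤ) : ℂ) • (qq i j a * phi N (pderiv a F)) =
          ∑ a ∈ A, ((a : ℤ) : ℂ) • ((∑ i ∈ range j, qq i j a) * phi N (pderiv a F)) := by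
        intro j _
        rw [Finset.sum_comm]
        apply Finset.sum_congr rfl
        intro a _
        rw [Finset.sum_mul, Finset.smul_sum]
      rw [Finset.sum_congr rfl this, Finset.sum_comm]
      apply Finset.sum_congr rfl
      intro a _
      rw [← Finset.smul_sum, ← Finset.sum_mul, sum_qq a.2, smul_mul_assoc, smul_smul]
      congr 1
      have : (a : ℤ) * (a : ℤ).sign = (((a : ℤ).natAbs : ℕ) : ℤ) := by
        rw [mul_comm, Int.sign_mul_self_eq_natAbs]
      rw [← Int.cast_mul, this, Int.cast_natCast]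
    rw [sum_euler_euler A hF, hg]
    simp only [L1, L0, LinearMap.coe_mk, AddHom.coe_mk]
    simp only [map_add, map_sub, map_neg, map_smul, map_sum, map_mul, phi_X]
    have hd : ∑ a ∈ A, ∑ b ∈ A, (((a : ℤ) : ℂ) * ((b : ℤ) : ℂ)) •
        (powerSum N ((a : ℤ) + b) * phi N (pderiv b (pderiv a F))) =
        ∑ a ∈ A, ∑ b ∈ A, (((a : ℤ) : ℂ) * ((b : ℤ) : ℂ)) •
          (phi N (XX ((a : ℤ) + b)) * phi N (pderiv b (pderiv a F))) +
        (N : ℂ) • ∑ a ∈ A, ∑ b ∈ A,
          (if (a : ℤ) + b = 0 then ((a : ℤ) : ℂ) * ((b : ℤ) : ℂ) else 0) •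
          phi N (pderiv b (pderiv a F)) := by
      rw [Finset.smul_sum, ← Finset.sum_add_distrib]
      apply Finset.sum_congr rfl
      intro a _
      rw [Finset.smul_sum, ← Finset.sum_add_distrib]
      apply Finset.sum_congr rfl
      intro b _
      rw [powerSum_split, add_mul, smul_add]
      congr 1
      split_ifs with h
      · rw [← Algebra.smul_def, smul_comm]
      · rw [zero_mul, smul_zero, zero_smul, smul_zero]
    have hq : ∀ a : Idx, ∑ l ∈ range ((a : ℤ).natAbs - 1),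
        phi N (XX ((a : ℤ).sign * ((l + 1 : ℕ) : ℤ))) *
          phi N (XX ((a : ℤ).sign * (((a : ℤ).natAbs - 1 - l : ℕ) : ℤ))) =
        ∑ l ∈ range ((a : ℤ).natAbs - 1), powerSum N ((a : ℤ).sign * ((l + 1 : ℕ) : ℤ)) *
          powerSum N ((a : ℤ).sign * (((a : ℤ).natAbs - 1 - l : ℕ) : ℤ)) := by
      intro a
      apply Finset.sum_congr rfl
      intro l hl
      rw [mem_range] at hl
      rw [phi_XX N (sign_mul_pos_ne a.2 (by omega)), phi_XX N (sign_mul_pos_ne a.2 (by omega))]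
    rw [hd]
    simp only [hq]
    have hs : ∑ a ∈ A, (((a : ℤ).natAbs : ℕ) : ℂ) •
          ((((N : ℂ) - (((a : ℤ).natAbs : ℕ) : ℂ)) • powerSum N a +
            ∑ l ∈ range ((a : ℤ).natAbs - 1), powerSum N ((a : ℤ).sign * ((l + 1 : ℕ) : ℤ)) *
              powerSum N ((a : ℤ).sign * (((a : ℤ).natAbs - 1 - l : ℕ) : ℤ))) *
            phi N (pderiv a F)) =
        (N : ℂ) • ∑ a ∈ A, (((a : ℤ).natAbs : ℕ) : ℂ) • (powerSum N a * phi N (pderiv a F)) +
        ∑ a ∈ A, (((a : ℤ).natAbs : ℕ) : ℂ) •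
          ((-((((a : ℤ).natAbs : ℕ) : ℂ) • powerSum N a) +
            ∑ l ∈ range ((a : ℤ).natAbs - 1), powerSum N ((a : ℤ).sign * ((l + 1 : ℕ) : ℤ)) *
              powerSum N ((a : ℤ).sign * (((a : ℤ).natAbs - 1 - l : ℕ) : ℤ))) *
            phi N (pderiv a F)) := by
      rw [Finset.smul_sum, ← Finset.sum_add_distrib]
      apply Finset.sum_congr rfl
      intro a _
      rw [smul_comm (N : ℂ), ← smul_add]
      refine congrArg₂ (· • ·) rfl ?_
      rw [← smul_mul_assoc, ← add_mul]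
      refine congrArg₂ (· * ·) ?_ rfl
      rw [sub_smul]; abel
    rw [hs]
    simp only [smul_add, smul_neg, smul_comm (N : ℂ) k]
    abel

end Q4.JL
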