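import Pool.Agent.Q4.JL.Asym

/-!
# The fixed exponent of a bipartition, and the eigenvalue equation for the specialisations
-/

namespace Q4.JL

open Finset Filter Topology Bornology MvPolynomial

theorem rowLen_eq_zero (mu : YoungDiagram) {i : ℕ} (h : len mu ≤ i) : mu.rowLen i = 0 := by
  by_contra hc
  have h1 : (i, 0) ∈ mu := YoungDiagram.mem_iff_lt_rowLen.mpr (Nat.pos_of_ne_zero hc)
  have h2 := YoungDiagram.mem_iff_lt_colLen.mp h1
  rw [len] at h
  omega

/-- The exponent `(lam_1, …, lam_r, - mu_1, …, - mu_s)`. -/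
noncomputable def psi0 (lam mu : YoungDiagram) : ℕ →₀ ℤ :=
  Finsupp.onFinset (range (len lam + len mu))
    (fun i => if i < len lam then (lam.rowLen i : ℤ) else -(mu.rowLen (i - len lam) : ℤ)) (by
      intro i h
      rw [mem_range]
      by_contra hc
      push Not at hc
      apply h
      rw [if_neg (by omega), rowLen_eq_zero mu (by omega)]
      simp)

theorem psi0_apply (lam mu : YoungDiagram) (i : ℕ) :
    psi0 lam mu i = if i < len lam then (lam.rowLen i : ℤ) else -(mu.rowLen (i - len lam) : ℤ) :=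
  rfl

theorem psi0_eq_zero (lam mu : YoungDiagram) {i : ℕ} (h : len lam + len mu ≤ i) :
    psi0 lam mu i = 0 := by
  rw [psi0_apply, if_neg (by omega), rowLen_eq_zero mu (by omega)]
  simp

/-- Reverse the interval `[r, N)`. -/
def rev (r N : ℕ) (i : ℕ) : ℕ := if r ≤ i ∧ i < N then N - 1 + r - i else i

theorem rev_invol (r N : ℕ) : Function.Involutive (rev r N) := by
  intro i
  unfold rev
  split_ifs <;> omega

/-- The permutation which takes `psi0` to `chi`. -/
def revPerm (r N : ℕ) : Equiv.Perm ℕ := (rev_invol r N).toPerm (rev r N)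

theorem revPerm_apply (r N i : ℕ) : revPerm r N i = rev r N i := rfl

theorem revPerm_of_le (r N : ℕ) : ∀ i, N ≤ i → revPerm r N i = i := by
  intro i hi
  rw [revPerm_apply, rev, if_neg (by omega)]

theorem psi0_rev {N : ℕ} (lam mu : YoungDiagram) (hN : len lam + len mu ≤ N) :
    ∀ i, i < N → psi0 lam mu (revPerm (len lam) N i) = chi N lam mu i := by
  intro i hi
  rw [revPerm_apply, psi0_apply, chi]
  by_cases h : i < len lam
  · have h1 : rev (len lam) N i = i := by unfold rev; rw [if_neg (by omega)]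
    rw [h1, if_pos h, rowLen_eq_zero mu (i := N - 1 - i) (by omega)]
    simp
  · have h1 : rev (len lam) N i = N - 1 + len lam - i := by unfold rev; rw [if_pos (by omega)]
    rw [h1, if_neg (by omega), rowLen_eq_zero lam (by omega)]
    have : N - 1 + len lam - i - len lam = N - 1 - i := by omega
    rw [this]; simp

theorem sq_psi0 {N : ℕ} (lam mu : YoungDiagram) (hN : len lam + len mu ≤ N) :
    ∑ i ∈ range N, chi N lam mu i ^ 2 = sq N (psi0 lam mu) := by
  rw [sq, ← sum_range_perm (revPerm (len lam) N) (revPerm_of_le _ _)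
    (fun i => psi0 lam mu i ^ 2)]
  apply Finset.sum_congr rfl
  intro i hi
  rw [psi0_rev lam mu hN i (mem_range.mp hi)]

theorem specialise_supported (F : MvPolynomial Idx (RatFunc ℂ)) (t : ℂ) :
    specialise F t ∈ supported ℂ (F.vars : Set Idx) := by
  rw [specialise]
  apply Subalgebra.sum_mem
  intro s hs
  by_cases hc : (F.coeff s).eval (RingHom.id ℂ) t = 0
  · rw [hc, monomial_zero]; exact Subalgebra.zero_mem _
  · rw [mem_supported, vars_monomial hc]
    intro a ha
    rw [Finset.mem_coe, mem_vars_iff_mem_support]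
    exact ⟨s, hs, ha⟩

theorem specialise_coeff (F : MvPolynomial Idx (RatFunc ℂ)) (t : ℂ) (s : Idx →₀ ℕ) :
    (specialise F t).coeff s = if s ∈ F.support then (F.coeff s).eval (RingHom.id ℂ) t else 0 := by
  classical
  rw [specialise, coeff_sum]
  split_ifs with h
  · rw [Finset.sum_eq_single s]
    · rw [coeff_monomial, if_pos rfl]
    · intro u _ hu; rw [coeff_monomial, if_neg hu]
    · intro hc; exact absurd h hc
  · apply Finset.sum_eq_zero
    intro u hu
    rw [coeff_monomial, if_neg (by rintro rfl; exact h hu)]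

/-- The eigenvalue equation for the specialisations at large integers. -/
theorem eigen_eq {k : ℂ} {lam mu : YoungDiagram} {F : MvPolynomial Idx (RatFunc ℂ)}
    (hF : IsJackLaurent k lam mu F) {N W : ℕ} (hN : len lam + len mu ≤ N) (hN1 : 1 ≤ N)
    (hW : ∀ s ∈ F.support, wt s ≤ W) (hWN : W ≤ N) :
    (N : ℂ) • L1 k F.vars (specialise F N) + L0 k F.vars (specialise F N) =
      ((sq N (psi0 lam mu) : ℂ) - k * (bb N (psi0 lam mu) : ℂ)) • specialise F N := by
  have h1 := ((hF N hN1).2.1 hN).wj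
  have h2 := h1.eigenvalue (revPerm (len lam) N) (revPerm_of_le _ _) (psi0_rev lam mu hN)
    (fun i hi => psi0_eq_zero lam mu (le_trans hN hi))
  have h3 := intertwine k N F.vars (specialise_supported F N)
  have h4 := Cms.unique h3 h2
  have hGr : Gr (W : ℤ) (specialise F N) := by
    intro s hs
    rw [specialise_coeff] at hs
    split_ifs at hs with hc
    · exact_mod_cast hW s hc
    · exact absurd rfl hs
  have h5 : (N : ℂ) • L1 k F.vars (specialise F N) + L0 k F.vars (specialise F N) -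
      ((sq N (psi0 lam mu) : ℂ) - k * (bb N (psi0 lam mu) : ℂ)) • specialise F N = 0 := by
    apply phi_inj (N := N) (w := W) _ hWN
    · rw [map_sub, h4, map_smul (phi N) _ (specialise F N), sub_self]
    · exact (((hGr.L1 k _).smul _).add (hGr.L0 k _)).sub (hGr.smul _)
  exact sub_eq_zero.mp h5

/-- `L1 + c`. -/
noncomputable def LA (k c : ℂ) (A : Finset Idx) :
    MvPolynomial Idx ℂ →ₗ[ℂ] MvPolynomial Idx ℂ := L1 k A + c • LinearMap.id

/-- `L0 - E`. -/
noncomputable def LB (k E : ℂ) (A : Finset Idx) :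
    MvPolynomial Idx ℂ →ₗ[ℂ] MvPolynomial Idx ℂ := L0 k A - E • LinearMap.id

theorem LA_apply (k c : ℂ) (A : Finset Idx) (F : MvPolynomial Idx ℂ) :
    LA k c A F = L1 k A F + c • F := rfl

theorem LB_apply (k E : ℂ) (A : Finset Idx) (F : MvPolynomial Idx ℂ) :
    LB k E A F = L0 k A F - E • F := rfl

/-- The same equation with the dependence on `N` made explicit. -/
theorem eigen_eq' {k : ℂ} {lam mu : YoungDiagram} {F : MvPolynomial Idx (RatFunc ℂ)}
    (hF : IsJackLaurent k lam mu F) {W : ℕ} (hW : ∀ s ∈ F.support, wt s ≤ W) :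
    ∃ E : ℂ, ∀ N : ℕ, len lam + len mu ≤ N → 1 ≤ N → W ≤ N →
      (sq N (psi0 lam mu) : ℂ) - k * (bb N (psi0 lam mu) : ℂ) =
        E - k * (gr (psi0 lam mu) : ℂ) * N ∧
      (N : ℂ) • LA k (k * (gr (psi0 lam mu) : ℂ)) F.vars (specialise F N) +
        LB k E F.vars (specialise F N) = 0 := by
  set N₀ := len lam + len mu with hN₀
  refine ⟨(sq N₀ (psi0 lam mu) : ℂ) - k * ((bb N₀ (psi0 lam mu) : ℂ) -
    (N₀ : ℂ) * (gr (psi0 lam mu) : ℂ)), ?_⟩
  intro N h0 h1 h2
  have e1 : (sq N (psi0 lam mu) : ℂ) = (sq N₀ (psi0 lam mu) : ℂ) := by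
    rw [sq_of_supp h0 (fun i hi => psi0_eq_zero lam mu hi)]
  have e2 : (bb N (psi0 lam mu) : ℂ) = (bb N₀ (psi0 lam mu) : ℂ) +
      ((N : ℂ) - (N₀ : ℂ)) * (gr (psi0 lam mu) : ℂ) := by
    obtain ⟨d, rfl⟩ := Nat.exists_eq_add_of_le h0
    rw [bb_add (fun i hi => psi0_eq_zero lam mu hi)]
    push_cast; ring
  have e3 : (sq N (psi0 lam mu) : ℂ) - k * (bb N (psi0 lam mu) : ℂ) =
      (sq N₀ (psi0 lam mu) : ℂ) - k * ((bb N₀ (psi0 lam mu) : ℂ) -
        (N₀ : ℂ) * (gr (psi0 lam mu) : ℂ)) - k * (gr (psi0 lam mu) : ℂ) * N := by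
    rw [e1, e2]; ring
  refine ⟨e3, ?_⟩
  have h := eigen_eq hF h0 h1 hW h2
  rw [e3] at h
  rw [LA_apply, LB_apply, smul_add]
  have : (N : ℂ) • L1 k F.vars (specialise F N) +
      (N : ℂ) • (k * (gr (psi0 lam mu) : ℂ)) • specialise F N +
      (L0 k F.vars (specialise F N) - ((sq N₀ (psi0 lam mu) : ℂ) -
        k * ((bb N₀ (psi0 lam mu) : ℂ) - (N₀ : ℂ) * (gr (psi0 lam mu) : ℂ))) •
          specialise F N) =
      ((N : ℂ) • L1 k F.vars (specialise F N) + L0 k F.vars (specialise F N)) -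
      ((sq N₀ (psi0 lam mu) : ℂ) - k * ((bb N₀ (psi0 lam mu) : ℂ) -
        (N₀ : ℂ) * (gr (psi0 lam mu) : ℂ)) - k * (gr (psi0 lam mu) : ℂ) * N) •
          specialise F N := by
    rw [smul_smul, sub_smul _ (k * (gr (psi0 lam mu) : ℂ) * N)]
    rw [mul_comm (N : ℂ)]
    abel
  rw [this, h, sub_self]

end Q4.JL
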